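import Pool.Agent.H885.BaseU
import Pool.Agent.H885.Mono
import Pool.Agent.H885.FewR
import Pool.Agent.H885.UnifM
import Pool.Graph.R_seed8.H340R2.LW

/-!
# Grothendieck's period conjecture in bounded degree near arbitrary fibres: the sum of the defects

For `j = 1, …, N` let `X_j → B_j` be a family of varieties over `ℚ`, `B_j` open in the affine space of **any dimension `m`**,
`0 ∈ B_j(ℚ)`, and let `P_j(x) = C_j Z_j(x)` be the period matrix of the motive `M_j` of rank `n` of the fibre over `x` near `0`;
`Z_j` is a fundamental matrix of the Gauss-Manin connection (a matrix of G-functions over `ℚ` in the `m` variables `x`)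
and `C_j` is the matrix of the periods of the central fibre. For rational points `x_j = a_j / b_j` the conjecture says that the
transcendence degree of the periods of `M = M_1 + … + M_N` over the algebraic numbers is the dimension of the motivic
Galois group. The **defect** of `M` is the difference.

We assume that the family is as general as its known algebraic relations permit. More exactly (`Fibres.Valid`): the group
is `T G`, where `G` is the Zariski closure of the monodromy (the differential Galois group, with the Lie algebra `𝔤`) and `T` is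
a torus of dimension `t` which multiplies `M_j` by the character `τ ↦ ∏ τ_i ^ v_(i j)`; the periods of `T` are `t`
algebraically independent numbers `θ_1, …, θ_t`, and there is a set `ℱ` of relations `F(P)² = ∏ θ_i ^ d_i q`, `q` algebraic, where
`F` is a polynomial with algebraic coefficients which is homogeneous of weight `d_i` for the `i`-th character, such that all
directions tangent to these relations are in the Lie algebra of `G`. The most important case is `t = 1`, `θ = 2 π i`
(`pi_independent`: Lindemann), `v_j` the weight of `M_j`, and `ℱ` consists of the relations of Riemann and Legendre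
`P_jᵀ J_j P_j = (2 π i) ^ v_j Q_j`, with the intersection form `J_j` and the pairing `Q_j` on algebraic de Rham cohomology; then
the condition on `ℱ` says that `𝔤` contains the product of the Lie algebras of the symplectic or orthogonal groups of the
forms `J_j` (`known_polarized`, `tangent_polarized`), that is, **big monodromy**, as for the families of hypersurfaces,
complete intersections, curves, abelian varieties. If the motivic group is `T G` for another group `G` (unitary, exceptional,
spin, …) one can take for `ℱ` the relations given by algebraic cycles; for unitary families over an imaginary quadratic field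
`t = 2` and the independence of the `θ_i` is the theorem of Chudnovsky.

More generally we consider the transcendence degree over any field `K = ℚ(η_1, …, η_u)` the generators of which are algebraic over
the field of the central periods: for `u = 0` this is the conjecture, for `K` = the field of the central periods and `t = 0` it
is the relative version, and there is no condition on `ℱ` then (no relations are used, so all families and all groups `G`
are admitted); in between one has, for instance, `K = ℚ(π)`, or the field of the periods of a fixed motive.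

**Theorem.** Fix `m, n, N, M, q, s, ℓ, t, u, e, δ`. There is `E` with the following property for all complex numbers
`β_1, …, β_s`, all `H, h, w` and all `b₀ ≥ (2 H (h + w + 2))^E`. We consider

* **all** tuples `b_1, …, b_N` of denominators in the window `[b₀, b₀ + w]`, at most `M` of them different, such that the
  distances of different `b_j` are larger than `2^(m+1) H (h + 2)`,
* **all** families over bases of dimension `m`, that is, all `n × n` systems `T ∂Z_j / ∂x_i = Z_j A_{j i}` of degree at
  most `q`, for which the height of the system and the growth constants of the coefficients and of the denominators of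
  `Z_j` and `Z_j⁻¹` are at most `H`,
* **all** numerators `a_j ∈ ℤ^m` with `|a_j| ≤ h`; if `0` is a pole of the system then the line `ℚ a_j` must not be contained
  in the polar locus `T = 0`,
* **all** numbers `γ_1, …, γ_ℓ`, **all** central fibres with periods (entries of the `C_j`) algebraic of degree at most
  `e` over `ℚ(β_1, …, β_s, γ_1, …, γ_ℓ)`, such that the period matrices `P_j(x_j)` are invertible, and all `K` as above, with
  generators `η_i` algebraic of degree at most `e` over `ℚ(β_1, …, β_s, γ_1, …, γ_ℓ)`,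
* all `θ`, `v`, `ℱ` as above, over `K` (without any bound for the degrees and coefficients), and a space `𝔤` of tuples
  `(X_1, …, X_N)` of matrices such that, for each `c`, the tuple of the `X_j` with `b_j = c` is an infinitesimal symmetry of the
  restrictions of the `Z_j` with `b_j = c` to the lines `ℚ a_j` (the Lie algebra of the differential Galois group; for
  points with different denominators the symmetries are independent of each other, even if the families are equal).

The defect is at most `ρ`, in degree `δ`, if `dim 𝔤 + t - ρ` of the entries of the period matrices `P_j(x_j)` satisfy no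
nonzero polynomial relation of degree at most `δ` the coefficients of which are algebraic of degree at most `e` over `K`
(for `K = ℚ`: algebraic numbers of degree at most `e`, of arbitrary height). Then:

1. **The sum of the defects is at most `s`:** for any number of motives (tuples of fibres) as above, of any families, the
   denominators of which are at distance larger than `2^(m+1) H (h + 2)` for different tuples, there are `ρ_1, ρ_2, …` with
   `∑ ρ_l ≤ s` such that the defect of the motive with number `l` is at most `ρ_l + ℓ`.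
2. **Few exceptional denominators:** for each `r ≥ ℓ` there is a set `F` of at most `M ⌊s / (r + 1 - ℓ)⌋` denominators such
   that **all** motives as above the denominators of which are at distance larger than `2^(m+1) H (h + 2)` from the
   elements of `F` have a defect of at most `r`. The set `F` depends on `β_1, …, β_s` and on the window only, not on the
   families, the central fibres, the points, the number fields or `𝔤`.

For `K = ℚ`, `r = ℓ = 0` and `s = trdeg ℚ(C_1, …, C_N)` this is the period conjecture in bounded degree, `trdeg = dim T G`, for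
all these motives, except for at most `M s` denominators in each window (and their neighbours). The bound in part 1 is optimal:
if the `β_i` are algebraically independent values of entries of `Z_1` at one of the points then this fibre has the defect `s`.

What is known. For **one fixed one-parameter** family the library has the transcendence degree relative to the periods of
the central fibre (`AllTuplesTranscendenceDegree` (MP_f11a48_ag), `AllTuplesDegenerating` (MP_cbf1af_ag)) and for
hyperelliptic and hypergeometric families absolutely (`AllTuplesInWindows`, `HyperellipticAllTuples`, MP_57341d_ag), with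
constants which depend on the family, and `AllFamiliesWindows` (MP_290158_ag) shows for one fixed one-parameter family that
all relations of bounded degree are specialisations of functional relations; for almost all algebraic points of a fixed
family there is `MonodromyDimension` (MP_57341d_ag), with bounded height of the relations. New here are the uniformity (all
families of bounded degree over bases of any dimension, all rational points, all central fibres with periods in a given
field, at once, with an exceptional set which does not depend on them), the absolute statement with arbitrary groups `T G`,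
the bound for the sum of the defects of different families, and the bound `⌊s / (r + 1 - ℓ)⌋` for the number of defects
larger than `r`.

Bounded degree is essential for the method: nothing is said about relations of degree larger than `δ`. That the
period matrices of families have the form `C Z(x)` with `Z` as above, and the interpretation of `dim 𝔤 + t` as the dimension of
the motivic Galois group (or of the Mumford-Tate group), are from the literature and not part of the Lean theorem.

Proof (`Pool/Agent/H885`). An ultraproduct of a sequence of counterexamples has, for each of the separated tuples and each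
symmetry `X`, a derivation of `*ℂ` over `*ℚ` which moves the values of the functions `Z_j` at this tuple by `X` and kills
the values at all other tuples (`UnifS`); this uses a linear independence theorem for values of G-functions without
independence conditions and with explicit constants, and the analytic continuation of the functions which belong to one
denominator around their own singularities. By linear algebra (`pigeonS`) the derivations which kill the `β_i` and
`γ_i` move the periods of the tuple `l` in a space of dimension at least `dim 𝔤 - ρ_l - ℓ`. Moreover there are derivations of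
`ℂ` over `K` which multiply `θ_i` by `2` and kill the other `θ`; since they respect the relations in `ℱ` they move the periods
in the direction of the torus up to an element of `𝔤` (`exists_tor`), and their ultraproducts give `t` further dimensions
(`uniformM`). So the transcendence degree over the field of constants of all these derivations, which contains all
numbers of bounded degree over `K`, is at least `dim 𝔤 + t - ρ_l - ℓ`.
-/

set_option autoImplicit false

open PowerSeries Filter
open scoped Matrix

namespace Pool.Agent.Results.MP_caab05_ag.AbsoluteDefects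

section several
variable {n m N : ℕ}

/-- an integer polynomial in `m` variables as a power series with rational coefficients -/
noncomputable def toQ (P : MvPolynomial (Fin m) ℤ) : MvPowerSeries (Fin m) ℚ :=
  ((P.map (Int.castRingHom ℚ) : MvPolynomial (Fin m) ℚ) : MvPowerSeries (Fin m) ℚ)

/-- the partial derivative `∂f / ∂x_i` -/
noncomputable def partialD (i : Fin m) (f : MvPowerSeries (Fin m) ℚ) : MvPowerSeries (Fin m) ℚ :=
  fun ν => ((ν i : ℚ) + 1) * MvPowerSeries.coeff (ν + Finsupp.single i 1) f

/-- `Z` is an invertible `n × n` matrix of G-functions in `m` variables with rational coefficients, `W = Z⁻¹`, which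
solves the system `T ∂Z / ∂x_i = Z A_i`, `i = 1, …, m`. The degrees of `T` and `A_i` are at most `q`; the
absolute values of their coefficients and the growth of the coefficients of `Z` and of the denominators of the
coefficients of `Z` and `W` are bounded by `H`. -/
structure Family (q : ℕ) (H : ℝ) (T : MvPolynomial (Fin m) ℤ) (A : Fin m → Fin n → Fin n → MvPolynomial (Fin m) ℤ)
    (Z W : Matrix (Fin n) (Fin n) (MvPowerSeries (Fin m) ℚ)) : Prop where
  /-- the degree of `T` -/
  degT : T.totalDegree ≤ q
  /-- the height of `T` -/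
  sizeT : ∀ ν, |((T.coeff ν : ℤ) : ℝ)| ≤ H
  /-- the degrees of the `A_i` -/
  degA : ∀ i a b, (A i a b).totalDegree ≤ q
  /-- the heights of the `A_i` -/
  sizeA : ∀ i a b ν, |(((A i a b).coeff ν : ℤ) : ℝ)| ≤ H
  /-- the differential equations -/
  ode : ∀ i a b, toQ T * partialD i (Z a b) = ∑ l, Z a l * toQ (A i l b)
  /-- `W` is the inverse of `Z` -/
  inv : W * Z = 1
  /-- the growth of the coefficients -/
  size : ∀ a b (ν : Fin m →₀ ℕ), |((MvPowerSeries.coeff ν (Z a b) : ℚ) : ℝ)| ≤ H ^ (∑ i, ν i + 1)
  /-- the growth of the common denominators of the coefficients -/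
  den : ∀ k : ℕ, ∃ d : ℕ, 0 < d ∧ (d : ℝ) ≤ H ^ (k + 1) ∧ ∀ a b (ν : Fin m →₀ ℕ), ∑ i, ν i ≤ k →
    (∃ z : ℤ, (d : ℚ) * MvPowerSeries.coeff ν (Z a b) = z) ∧ ∃ z : ℤ, (d : ℚ) * MvPowerSeries.coeff ν (W a b) = z

/-- the power series `f(x a)` in the variable `x`, the restriction of `f` to the line through `0` with direction `a` -/
noncomputable def restrict (a : Fin m → ℤ) (f : MvPowerSeries (Fin m) ℚ) : PowerSeries ℚ :=
  PowerSeries.mk fun k => ∑ ν ∈ (Finset.univ : Finset (Fin m)).finsuppAntidiag k,
    MvPowerSeries.coeff ν f * ∏ i, (a i : ℚ) ^ ν i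

/-- the value `Z(a / b)`, that is, the value of the restriction of `Z` to the line at `x = 1 / b` -/
noncomputable def value (Z : Matrix (Fin n) (Fin n) (MvPowerSeries (Fin m) ℚ)) (a : Fin m → ℤ) (b : ℕ) :
    Matrix (Fin n) (Fin n) ℂ :=
  Matrix.of fun i j => ((∑' k : ℕ, ((coeff k (restrict a (Z i j)) : ℚ) : ℝ) * (1 / (b : ℝ)) ^ k : ℝ) : ℂ)

/-- the restriction of `Z` to the line with direction `a`, over `ℂ` -/
noncomputable def onLine (a : Fin m → ℤ) (Z : Matrix (Fin n) (Fin n) (MvPowerSeries (Fin m) ℚ)) :
    Matrix (Fin n) (Fin n) (PowerSeries ℂ) :=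
  Z.map fun f => PowerSeries.map (algebraMap ℚ ℂ) (restrict a f)

/-- `(X_1, …, X_N)` is an infinitesimal symmetry of the matrices `Y_1, …, Y_N` of power series: for all polynomial relations
`R(x, Y_1(x), …, Y_N(x)) = 0` over `ℂ[x]` the derivative of `R(x, (1 + ε X_1) Y_1(x), …, (1 + ε X_N) Y_N(x))` at `ε = 0` is
zero. -/
def Symmetry (Y : Fin N → Matrix (Fin n) (Fin n) (PowerSeries ℂ)) (X : Fin N → Matrix (Fin n) (Fin n) ℂ) : Prop :=
  ∀ R : MvPolynomial (Fin N × Fin n × Fin n) (Polynomial ℂ),
    MvPolynomial.aeval (fun σ => Y σ.1 σ.2.1 σ.2.2) R = 0 →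
    ∑ σ, MvPolynomial.aeval (fun σ => Y σ.1 σ.2.1 σ.2.2) (MvPolynomial.pderiv σ R) *
      ((X σ.1).map (PowerSeries.C (R := ℂ)) * Y σ.1) σ.2.1 σ.2.2 = 0

end several

/-- `y` satisfies an equation `P(ξ, y) = 0` where `P` has rational coefficients and total degree at most `e` and `P(ξ, Y)` is
not the zero polynomial. All algebraic numbers of degree at most `e` and all polynomials of degree at most `e` in the `ξ_i` with
rational coefficients have this property. -/
def AlgebraicOver (e : ℕ) {u : ℕ} (ξ : Fin u → ℂ) (y : ℂ) : Prop :=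
  ∃ P : MvPolynomial (Option (Fin u)) ℚ, P.totalDegree ≤ e ∧ MvPolynomial.aeval (fun o : Option (Fin u) => o.elim y ξ) P = 0 ∧
    ∃ y' : ℂ, MvPolynomial.aeval (fun o : Option (Fin u) => o.elim y' ξ) P ≠ 0

/-- numbers which are algebraic over `ℚ(ξ_1, …, ξ_u)` are algebraic of bounded degree -/
theorem algebraicOver_of_isAlgebraic {u : ℕ} {ξ : Fin u → ℂ} {y : ℂ}
    (h : IsAlgebraic (IntermediateField.adjoin ℚ (Set.range ξ)) y) : ∃ e, AlgebraicOver e ξ y :=
  Pool.Agent.H885.algD_of_alg h

/-- The transcendence degree over `ℚ(ξ_1, …, ξ_u)` of the entries of the matrices `P_1, …, P_N` is at least `t`, in degree at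
most `δ`: some `t` of the entries (at different places) satisfy no nonzero polynomial relation of degree at most `δ` the
coefficients of which are algebraic of degree at most `e` over `ξ_1, …, ξ_u`. -/
def TrdegAtLeast {n N : ℕ} (t e δ : ℕ) {u : ℕ} (ξ : Fin u → ℂ) (P : Fin N → Matrix (Fin n) (Fin n) ℂ) : Prop :=
  ∃ σ : Fin t → Fin N × Fin n × Fin n, Function.Injective σ ∧ ∀ S : MvPolynomial (Fin t) ℂ, S.totalDegree ≤ δ →
    (∀ ν, AlgebraicOver e ξ (S.coeff ν)) →
    MvPolynomial.aeval (fun i => P (σ i).1 (σ i).2.1 (σ i).2.2) S = 0 → S = 0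

/-- the distance of `b` and `c` is larger than `2^(m+1) H (h + 2)` -/
def Far (m : ℕ) (H : ℝ) (h b c : ℕ) : Prop := 2 ^ (m + 1) * H * ((h : ℝ) + 2) < |(b : ℝ) - c|

/-- A tuple of `N` fibres: denominators `b_j` and numerators `a_j` of the points, systems `T_j, A_j`, their fundamental matrices
`Z_j` and `W_j = Z_j⁻¹`, the period matrices `C_j` of the central fibres, `ℓ` further numbers `γ`, a space `𝔤` of tuples of
matrices, for instance the Lie algebra of the differential Galois group of the restrictions of the systems to the lines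
through `0` and the points, generators `η` of a
field `K`, the periods `θ` of a torus of dimension `t`, its weights, and a set `ℱ` of polynomials in the entries of
`N` matrices. -/
structure Fibres (m n N ℓ t u : ℕ) where
  /-- the denominators of the points -/
  b : Fin N → ℕ
  /-- the numerators of the points -/
  a : Fin N → Fin m → ℤ
  /-- the denominators of the systems -/
  T : Fin N → MvPolynomial (Fin m) ℤ
  /-- the matrices of the systems -/
  A : Fin N → Fin m → Fin n → Fin n → MvPolynomial (Fin m) ℤ
  /-- the fundamental matrices -/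
  Z : Fin N → Matrix (Fin n) (Fin n) (MvPowerSeries (Fin m) ℚ)
  /-- their inverses -/
  W : Fin N → Matrix (Fin n) (Fin n) (MvPowerSeries (Fin m) ℚ)
  /-- further constants -/
  γ : Fin ℓ → ℂ
  /-- the periods of the central fibres -/
  C : Fin N → Matrix (Fin n) (Fin n) ℂ
  /-- symmetries -/
  𝔤 : Submodule ℂ (Fin N → Matrix (Fin n) (Fin n) ℂ)
  /-- the generators of the field `K` -/
  η : Fin u → ℂ
  /-- the periods of the torus -/
  θ : Fin t → ℂ
  /-- the weights of the torus -/
  v : Fin t → Fin N → ℕ
  /-- the known relations -/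
  ℱ : Set (MvPolynomial (Fin N × Fin n × Fin n) ℂ)

/-- the period matrices `C_j Z_j(a_j / b_j)` of the fibres -/
noncomputable def Fibres.periods {m n N ℓ t u : ℕ} (x : Fibres m n N ℓ t u) : Fin N → Matrix (Fin n) (Fin n) ℂ :=
  fun j => x.C j * value (x.Z j) (x.a j) (x.b j)

/-- The polynomials `F` in `ℱ` have coefficients algebraic over `K = ℚ(η)`, they are homogeneous for the weights `v_i`, and
`F(P)²` is the product of a number algebraic over `K` and of the powers `θ_i ^ d_i`, where `d_i` is the weight of `F`. -/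
structure Known {n N t u : ℕ} (η : Fin u → ℂ) (θ : Fin t → ℂ) (v : Fin t → Fin N → ℕ) (ℱ : Set (MvPolynomial (Fin N × Fin n × Fin n) ℂ))
    (P : Fin N → Matrix (Fin n) (Fin n) ℂ) : Prop where
  /-- the coefficients are algebraic -/
  algebraic : ∀ F ∈ ℱ, ∀ ν, IsAlgebraic (IntermediateField.adjoin ℚ (Set.range η)) (F.coeff ν)
  /-- the weights and the values -/
  value : ∀ F ∈ ℱ, ∃ d : Fin t → ℕ, (∀ i, F.IsWeightedHomogeneous (fun σ => v i σ.1) (d i)) ∧
    ∃ q : ℂ, IsAlgebraic (IntermediateField.adjoin ℚ (Set.range η)) q ∧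
      (MvPolynomial.eval (fun σ => P σ.1 σ.2.1 σ.2.2) F) ^ 2 = (∏ i, θ i ^ d i) * q

/-- the tuple `Y` is tangent to the relations: for all `F` in `ℱ` the derivative of `F((1 + ε Y) P)` at `ε = 0` is zero -/
def Tangent {n N : ℕ} (ℱ : Set (MvPolynomial (Fin N × Fin n × Fin n) ℂ)) (P Y : Fin N → Matrix (Fin n) (Fin n) ℂ) : Prop :=
  ∀ F ∈ ℱ, ∑ σ, MvPolynomial.eval (fun σ => P σ.1 σ.2.1 σ.2.2) (MvPolynomial.pderiv σ F) * (Y σ.1 * P σ.1) σ.2.1 σ.2.2 = 0

/-- The conditions for a tuple of fibres, see the description of the theorem. -/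
structure Fibres.Valid {m n N ℓ t u s : ℕ} (q M e : ℕ) (β : Fin s → ℂ) (H : ℝ) (h w b₀ : ℕ) (x : Fibres m n N ℓ t u) : Prop where
  /-- the denominators are in the window `[b₀, b₀ + w]` -/
  window : ∀ j, b₀ ≤ x.b j ∧ x.b j ≤ b₀ + w
  /-- they are equal or far from each other -/
  far : ∀ i j, x.b i = x.b j ∨ Far m H h (x.b i) (x.b j)
  /-- at most `M` of them are different -/
  different : (Finset.univ.image x.b).card ≤ M
  /-- the numerators are bounded by `h` -/
  numerators : ∀ j i, |x.a j i| ≤ h
  /-- the systems have degree at most `q`, height and growth constants at most `H` -/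
  family : ∀ j, Family q H (x.T j) (x.A j) (x.Z j) (x.W j)
  /-- the lines are not contained in the polar loci -/
  pole : ∀ j, restrict (x.a j) (toQ (x.T j)) ≠ 0
  /-- the periods of the central fibres are algebraic over `ℚ(β, γ)` -/
  central : ∀ j i i', AlgebraicOver e (Fin.append β x.γ) (x.C j i i')
  /-- the period matrices are invertible -/
  invertible : ∀ j, IsUnit (x.periods j)
  /-- `𝔤` consists of infinitesimal symmetries, separately for each denominator `c` -/
  symmetries : ∀ X ∈ x.𝔤, ∀ c : ℕ,
    Symmetry (fun j => if x.b j = c then onLine (x.a j) (x.Z j) else 1) (fun j => if x.b j = c then X j else 0)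
  /-- the generators of `K` are algebraic over `ℚ(β, γ)` -/
  field : ∀ i, AlgebraicOver e (Fin.append β x.γ) (x.η i)
  /-- the periods of the torus are algebraically independent over `K` -/
  independent : AlgebraicIndependent (IntermediateField.adjoin ℚ (Set.range x.η)) x.θ
  /-- the known relations -/
  known : Known x.η x.θ x.v x.ℱ x.periods
  /-- the directions which are tangent to the known relations are in the conjugate of `𝔤` by the `C_j`; there is no condition if
  the torus is trivial -/
  tangent : 0 < t → ∀ Y, Tangent x.ℱ x.periods Y → (fun j => (x.C j)⁻¹ * Y j * x.C j) ∈ x.𝔤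
  /-- the Lie algebra of the torus, which acts by scalars, meets `𝔤` only in zero -/
  torus : ∀ c : Fin t → ℂ, (fun j => (∑ i, c i * x.v i j) • (1 : Matrix (Fin n) (Fin n) ℂ)) ∈ x.𝔤 → c = 0

/-- The defect of the tuple of fibres is at most `ρ`, in bounded degree: the transcendence degree of their periods over `K`
is at least `dim 𝔤 + t - ρ`. -/
def Fibres.DefectAtMost {m n N ℓ t u : ℕ} (e δ : ℕ) (x : Fibres m n N ℓ t u) (ρ : ℕ) : Prop :=
  TrdegAtLeast (Module.finrank ℂ x.𝔤 + t - ρ) e δ x.η x.periods

/-- the denominators of two tuples of fibres are far from each other -/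
def Separated {m n N ℓ t u : ℕ} (H : ℝ) (h : ℕ) (x y : Fibres m n N ℓ t u) : Prop := ∀ i j, Far m H h (x.b i) (y.b j)

/-! ## The relations of Riemann and Legendre -/

/-- `2 π i` is transcendental (Lindemann) -/
theorem pi_independent (η : Fin 0 → ℂ) : AlgebraicIndependent (IntermediateField.adjoin ℚ (Set.range η))
    (fun _ : Fin 1 => 2 * (Real.pi : ℂ) * Complex.I) := by
  rw [algebraicIndependent_unique_type_iff]
  intro h'
  have h : IsAlgebraic ℚ (2 * (Real.pi : ℂ) * Complex.I) := by
    rw [Set.range_eq_empty, IntermediateField.adjoin_empty] at h'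
    exact h'.restrictScalars ℚ
  have h1 : IsAlgebraic ℚ Complex.I := by
    refine ⟨Polynomial.X ^ 2 + 1, ?_, by simp⟩
    intro h0
    have h2 := congrArg (Polynomial.eval 0) h0
    simp at h2
  have h2 : (Real.pi : ℂ) = (2 * (Real.pi : ℂ) * Complex.I) * (-Complex.I) * ((2 : ℚ) : ℂ)⁻¹ := by
    linear_combination (Real.pi : ℂ) * Complex.I_sq
  refine Pool.Agent.H340R2.LW.transcendental_pi_complex ?_
  rw [h2]
  exact (h.mul h1.neg).mul (isAlgebraic_algebraMap (R := ℚ) (A := ℂ) 2).inv

/-- the entries of the matrices `X_jᵀ J_j X_j` -/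
noncomputable def bilinear {n N : ℕ} (J : Fin N → Matrix (Fin n) (Fin n) ℂ) (j : Fin N) (a b : Fin n) :
    MvPolynomial (Fin N × Fin n × Fin n) ℂ :=
  ∑ c, ∑ d, MvPolynomial.C (J j c d) * (MvPolynomial.X (j, c, a) * MvPolynomial.X (j, d, b))

/-- the relations of Riemann and Legendre -/
def legendre {n N : ℕ} (J : Fin N → Matrix (Fin n) (Fin n) ℂ) : Set (MvPolynomial (Fin N × Fin n × Fin n) ℂ) :=
  {F | ∃ j a b, F = bilinear J j a b}

theorem eval_bilinear {n N : ℕ} (J P : Fin N → Matrix (Fin n) (Fin n) ℂ) (j : Fin N) (a b : Fin n) :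
    MvPolynomial.eval (fun σ => P σ.1 σ.2.1 σ.2.2) (bilinear J j a b) = ((P j)ᵀ * J j * P j) a b := by
  unfold bilinear
  rw [map_sum, Matrix.mul_assoc, Matrix.mul_apply]
  refine Finset.sum_congr rfl fun c _ => ?_
  rw [map_sum, Matrix.mul_apply, Finset.mul_sum]
  refine Finset.sum_congr rfl fun d _ => ?_
  rw [map_mul, map_mul, MvPolynomial.eval_C, MvPolynomial.eval_X, MvPolynomial.eval_X, Matrix.transpose_apply]
  ring

/-- for polarized families the relations of Riemann and Legendre are known relations -/
theorem known_polarized {n N u : ℕ} (η : Fin u → ℂ) {J Q P : Fin N → Matrix (Fin n) (Fin n) ℂ} {w : Fin N → ℕ}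
    (hJ : ∀ j a b, IsAlgebraic ℚ (J j a b)) (hQ : ∀ j a b, IsAlgebraic ℚ (Q j a b))
    (hP : ∀ j, (P j)ᵀ * J j * P j = (2 * (Real.pi : ℂ) * Complex.I) ^ w j • Q j) :
    Known η (fun _ : Fin 1 => 2 * (Real.pi : ℂ) * Complex.I) (fun _ => w) (legendre J) P := by
  classical
  refine ⟨?_, ?_⟩
  · rintro F ⟨j, a, b, rfl⟩ ν
    refine IsAlgebraic.tower_top (K := ℚ) _ ?_
    unfold bilinear
    rw [MvPolynomial.coeff_sum]
    refine mem_algebraicClosure_iff.1 ((algebraicClosure ℚ ℂ).sum_mem fun c _ => mem_algebraicClosure_iff.2 ?_)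
    rw [MvPolynomial.coeff_sum]
    refine mem_algebraicClosure_iff.1 ((algebraicClosure ℚ ℂ).sum_mem fun d _ => mem_algebraicClosure_iff.2 ?_)
    rw [MvPolynomial.coeff_C_mul, MvPolynomial.coeff_X_mul', MvPolynomial.coeff_X]
    refine (hJ j c d).mul ?_
    split_ifs
    · exact isAlgebraic_one
    · exact isAlgebraic_zero
    · exact isAlgebraic_zero
  · rintro F ⟨j, a, b, rfl⟩
    refine ⟨fun _ => 2 * w j, fun i => ?_, Q j a b ^ 2, IsAlgebraic.tower_top (K := ℚ) _ ((hQ j a b).pow 2), ?_⟩
    · unfold bilinear
      refine MvPolynomial.IsWeightedHomogeneous.sum _ _ _ fun c _ => ?_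
      refine MvPolynomial.IsWeightedHomogeneous.sum _ _ _ fun d _ => ?_
      have h1 := (MvPolynomial.isWeightedHomogeneous_X ℂ (fun σ : Fin N × Fin n × Fin n => w σ.1) (j, c, a)).mul
        (MvPolynomial.isWeightedHomogeneous_X ℂ (fun σ : Fin N × Fin n × Fin n => w σ.1) (j, d, b))
      have h2 := (MvPolynomial.isWeightedHomogeneous_C (fun σ : Fin N × Fin n × Fin n => w σ.1) (J j c d)).mul h1
      have h3 : 0 + (w j + w j) = 2 * w j := by ring
      rw [← h3]
      exact h2
    · rw [eval_bilinear, hP j, Matrix.smul_apply, smul_eq_mul, Fin.prod_univ_one]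
      ring

/-- for polarized families the tangent directions are the infinitesimal isometries of the forms `J_j` -/
theorem tangent_polarized {n N : ℕ} {J P Y : Fin N → Matrix (Fin n) (Fin n) ℂ} (hP : ∀ j, IsUnit (P j).det)
    (hY : Tangent (legendre J) P Y) : ∀ j, (Y j)ᵀ * J j + J j * Y j = 0 := by
  classical
  intro j
  have h1 : (P j)ᵀ * ((Y j)ᵀ * J j + J j * Y j) * P j = 0 := by
    refine Matrix.ext fun a b => ?_
    rw [Matrix.zero_apply, ← hY _ ⟨j, a, b, rfl⟩]
    have h2 : ∀ σ, MvPolynomial.pderiv σ (bilinear J j a b) = ∑ c, ∑ d, MvPolynomial.C (J j c d) *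
        ((if (j, c, a) = σ then 1 else 0) * MvPolynomial.X (j, d, b) +
          MvPolynomial.X (j, c, a) * (if (j, d, b) = σ then 1 else 0)) := by
      intro σ
      unfold bilinear
      rw [map_sum]
      refine Finset.sum_congr rfl fun c _ => ?_
      rw [map_sum]
      refine Finset.sum_congr rfl fun d _ => ?_
      rw [MvPolynomial.pderiv_C_mul, MvPolynomial.pderiv_mul, MvPolynomial.pderiv_X, MvPolynomial.pderiv_X]
      rw [Pi.single_apply, Pi.single_apply]
    have h3 : ∀ σ : Fin N × Fin n × Fin n, MvPolynomial.eval (fun σ => P σ.1 σ.2.1 σ.2.2) (MvPolynomial.pderiv σ (bilinear J j a b)) *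
        (Y σ.1 * P σ.1) σ.2.1 σ.2.2 = ∑ c, ∑ d, J j c d * ((if (j, c, a) = σ then P j d b * (Y σ.1 * P σ.1) σ.2.1 σ.2.2 else 0) +
          (if (j, d, b) = σ then P j c a * (Y σ.1 * P σ.1) σ.2.1 σ.2.2 else 0)) := by
      intro σ
      rw [h2, map_sum, Finset.sum_mul]
      refine Finset.sum_congr rfl fun c _ => ?_
      rw [map_sum, Finset.sum_mul]
      refine Finset.sum_congr rfl fun d _ => ?_
      rw [map_mul, map_add, map_mul, map_mul, MvPolynomial.eval_C, MvPolynomial.eval_X, MvPolynomial.eval_X]
      split_ifs <;> simp <;> ring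
    rw [Finset.sum_congr rfl fun σ _ => h3 σ, Finset.sum_comm]
    rw [Matrix.mul_add, Matrix.add_mul, Matrix.add_apply]
    have h4 : ∀ c, ∑ σ : Fin N × Fin n × Fin n, ∑ d, J j c d * ((if (j, c, a) = σ then P j d b * (Y σ.1 * P σ.1) σ.2.1 σ.2.2 else 0) +
          (if (j, d, b) = σ then P j c a * (Y σ.1 * P σ.1) σ.2.1 σ.2.2 else 0)) =
        ∑ d, J j c d * (P j d b * (Y j * P j) c a + P j c a * (Y j * P j) d b) := by
      intro c
      rw [Finset.sum_comm]
      refine Finset.sum_congr rfl fun d _ => ?_
      rw [← Finset.mul_sum, Finset.sum_add_distrib, Finset.sum_ite_eq, Finset.sum_ite_eq, if_pos (Finset.mem_univ _),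
        if_pos (Finset.mem_univ _)]
    rw [Finset.sum_congr rfl fun c _ => h4 c]
    have h5 : (P j)ᵀ * ((Y j)ᵀ * J j) * P j = (Y j * P j)ᵀ * J j * P j := by
      rw [Matrix.transpose_mul]
      simp only [Matrix.mul_assoc]
    have h6 : (P j)ᵀ * (J j * Y j) * P j = (P j)ᵀ * J j * (Y j * P j) := by
      simp only [Matrix.mul_assoc]
    rw [h5, h6, Matrix.mul_assoc, Matrix.mul_assoc, Matrix.mul_apply, Matrix.mul_apply, ← Finset.sum_add_distrib]
    refine Finset.sum_congr rfl fun c _ => ?_
    rw [Matrix.mul_apply, Matrix.mul_apply, Finset.mul_sum, Finset.mul_sum, ← Finset.sum_add_distrib]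
    refine Finset.sum_congr rfl fun d _ => ?_
    rw [Matrix.transpose_apply, Matrix.transpose_apply]
    ring
  have hPt : IsUnit ((P j)ᵀ).det := by
    rw [Matrix.det_transpose]
    exact hP j
  have h2 := congrArg (fun M => ((P j)ᵀ)⁻¹ * M * (P j)⁻¹) h1
  simp only [Matrix.mul_zero, Matrix.zero_mul] at h2
  rw [← h2, Matrix.mul_assoc (P j)ᵀ, Matrix.nonsing_inv_mul_cancel_left _ _ hPt, Matrix.mul_nonsing_inv_cancel_right _ _ (hP j)]

/-! ## Proofs -/

theorem base_of {m n q : ℕ} {H : ℝ} (hH : 1 ≤ H) {T : MvPolynomial (Fin m) ℤ}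
    {A : Fin m → Fin n → Fin n → MvPolynomial (Fin m) ℤ} {Z W : Matrix (Fin n) (Fin n) (MvPowerSeries (Fin m) ℚ)}
    (h : Family q H T A Z W) :
    Pool.Agent.H885.GBaseU (N := 1) q H T (fun _ => A) (fun _ => Z) (fun _ => W) :=
  ⟨hH, h.degT, h.sizeT, fun _ => h.degA, fun _ => h.sizeA, fun _ => h.ode, fun _ => h.inv, fun _ => h.size, fun k => by
    obtain ⟨d, h1, h2, h3⟩ := h.den k
    exact ⟨d, h1, h2, fun _ => h3⟩⟩

theorem sym_inf {m n N : ℕ} {Z : Fin N → Matrix (Fin n) (Fin n) (MvPowerSeries (Fin m) ℚ)} {a : Fin N → Fin m → ℤ}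
    {b : Fin N → ℕ} {β : ℕ} {X : Fin N → Matrix (Fin n) (Fin n) ℂ}
    (h : Symmetry (fun j => if b j = β then onLine (a j) (Z j) else 1) (fun j => if b j = β then X j else 0)) :
    Pool.Agent.H885.InfT (Pool.Agent.H885.part b (fun j => Pool.Agent.H885.lineM (a j) (Z j)) β)
      (fun j => if b j = β then X j else 0) := by
  have h1 : Pool.Agent.H885.cent (Pool.Agent.H885.part b (fun j => Pool.Agent.H885.lineM (a j) (Z j)) β) =
      fun σ : Fin N × Fin n × Fin n => (if b σ.1 = β then onLine (a σ.1) (Z σ.1) else 1) σ.2.1 σ.2.2 := by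
    funext σ
    unfold Pool.Agent.H885.cent Pool.Agent.H885.part
    by_cases hb : b σ.1 = β
    · rw [if_pos hb, if_pos hb]
      rfl
    · rw [if_neg hb, if_neg hb, Matrix.one_apply, Matrix.one_apply]
      split_ifs
      · exact map_one _
      · exact map_zero _
  intro R hR
  rw [h1] at hR ⊢
  refine Eq.trans ?_ (h R hR)
  refine Finset.sum_congr rfl fun σ _ => ?_
  rw [Matrix.mul_apply]
  rfl

theorem far_symm {m : ℕ} {H : ℝ} {h b c : ℕ} (hbc : Far m H h b c) : Far m H h c b := by
  unfold Far at hbc ⊢
  rw [abs_sub_comm]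
  exact hbc

/-- a bounded number of separated tuples -/
theorem core (m n N q s ℓ t u e δ L : ℕ) (d : Fin L → ℕ) : ∃ E : ℕ, ∀ (M : ℕ) (β : Fin s → ℂ) (H : ℝ) (h w b₀ : ℕ), 1 ≤ H →
    (2 * H * ((h : ℝ) + w + 2)) ^ E ≤ (b₀ : ℝ) → ∀ x : Fin L → Fibres m n N ℓ t u, (∀ l, (x l).Valid q M e β H h w b₀) →
    (∀ l l', l ≠ l' → Separated H h (x l) (x l')) → (∀ l, d l = Module.finrank ℂ (x l).𝔤) →
    ∃ ρ : Fin L → ℕ, ∑ l, ρ l ≤ s ∧ ∀ l, (x l).DefectAtMost e δ (ρ l + ℓ) := by
  classical
  obtain ⟨q', E₀, hbase⟩ := Pool.Agent.H885.base_sysU m n 1 q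
  obtain ⟨E, hE⟩ := Pool.Agent.H885.uniformM n N q' s ℓ t u e δ L d
  obtain ⟨e₁, he₁⟩ := Pool.Agent.H885.pow_absorb (c := (2 : ℝ) * (1 + 2 ^ m)) (by
    have : (1 : ℝ) ≤ 2 ^ m := one_le_pow₀ (by norm_num)
    linarith)
  refine ⟨(e₁ + E₀ + 1) * E, fun M β H h w b₀ hH hbig xs hxs hsep hd => ?_⟩
  set x : ℝ := 2 * H * ((h : ℝ) + w + 2) with hx
  have hh0 : (0 : ℝ) ≤ h := by positivity
  have hw0 : (0 : ℝ) ≤ w := by positivity
  have hx1 : (h : ℝ) + w + 2 ≤ x := by
    rw [hx]
    nlinarith
  have hx2 : 2 ≤ x := by linarith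
  have hx3 : H * ((h : ℝ) + 2) ≤ x := by
    rw [hx]
    nlinarith
  have hx4 : 2 * H * ((h : ℝ) + 2) ≤ x := by
    rw [hx]
    nlinarith
  have hbig' : (2 * (2 * H * ((h : ℝ) + 2)) ^ E₀ * ((w : ℝ) + 2 ^ m * (H * ((h : ℝ) + 2)) + 2)) ^ E ≤ (b₀ : ℝ) := by
    refine le_trans ?_ hbig
    rw [pow_mul]
    refine pow_le_pow_left₀ (by positivity) ?_ E
    have h1 : (2 * H * ((h : ℝ) + 2)) ^ E₀ ≤ x ^ E₀ := pow_le_pow_left₀ (by positivity) hx4 _
    have h2 : (w : ℝ) + 2 ^ m * (H * ((h : ℝ) + 2)) + 2 ≤ (1 + 2 ^ m) * x := by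
      have h3 : (2 : ℝ) ^ m * (H * ((h : ℝ) + 2)) ≤ 2 ^ m * x := mul_le_mul_of_nonneg_left hx3 (by positivity)
      linarith
    calc 2 * (2 * H * ((h : ℝ) + 2)) ^ E₀ * ((w : ℝ) + 2 ^ m * (H * ((h : ℝ) + 2)) + 2) ≤
        2 * x ^ E₀ * ((1 + 2 ^ m) * x) := by
          refine mul_le_mul (by linarith) h2 (by positivity) (by positivity)
      _ = (2 * (1 + 2 ^ m)) * (x ^ E₀ * x) := by ring
      _ ≤ x ^ e₁ * (x ^ E₀ * x) := mul_le_mul_of_nonneg_right (he₁ x hx2) (by positivity)
      _ = x ^ (e₁ + E₀ + 1) := by ring
  have hFar : ∀ b c : ℕ, Far m H h b c → 2 * (2 ^ m * (H * ((h : ℝ) + 2))) < |(b : ℝ) - c| := by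
    intro b c hbc
    refine lt_of_eq_of_lt ?_ hbc
    ring
  have h1 : ∀ l j, ∃ (T' : Polynomial ℤ) (B' : Fin n → Fin n → Polynomial ℤ), T' ≠ 0 ∧
      Pool.Agent.H885.Sys (N := 1) q' ((2 * H * ((h : ℝ) + 2)) ^ E₀) T' (fun _ => B')
        (fun _ => Pool.Agent.H885.lineM ((xs l).a j) ((xs l).Z j)) (fun _ => Pool.Agent.H885.lineM ((xs l).a j) ((xs l).W j)) := by
    intro l j
    obtain ⟨T', B', hT', hS'⟩ := hbase H ((xs l).T j) (fun _ => (xs l).A j) (fun _ => (xs l).Z j) (fun _ => (xs l).W j)
      (base_of hH ((hxs l).family j)) h (fun _ => (xs l).a j) (fun _ => (hxs l).numerators j) (fun _ => (hxs l).pole j)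
    have h2 : B' = fun _ => B' 0 := funext fun i => by rw [Subsingleton.elim i 0]
    rw [h2] at hS'
    exact ⟨T', B' 0, hT', hS'⟩
  choose T' B' hT' hS' using h1
  obtain ⟨ρ, hρ, hρ'⟩ := hE ⟨⟨β, fun l => (xs l).γ, fun l => (xs l).C, (2 * H * ((h : ℝ) + 2)) ^ E₀, T', B',
      fun l j => Pool.Agent.H885.lineM ((xs l).a j) ((xs l).Z j), fun l j => Pool.Agent.H885.lineM ((xs l).a j) ((xs l).W j),
      2 ^ m * (H * ((h : ℝ) + 2)), w, b₀, fun l => (xs l).b, fun l => (xs l).𝔤⟩, fun l => (xs l).η, fun l => (xs l).θ, fun l => (xs l).v,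
      fun l => (xs l).ℱ⟩
    ⟨⟨fun l => (hxs l).central, one_le_pow₀ (by nlinarith), hS', hT', by positivity, fun l j a' b' =>
        Pool.Agent.Y120.GH.cx_mem (by positivity)
          (Pool.Agent.H885.line_size hH (((hxs l).family j).size a' b') ((hxs l).numerators j)),
      fun l j => (hxs l).window j, fun l j l' j' hne => by
        by_cases hll : l = l'
        · subst hll
          rcases (hxs l).far j j' with h2 | h2
          · exact absurd ⟨rfl, h2⟩ hne
          · exact hFar _ _ h2
        · exact hFar _ _ (hsep l l' hll j j'), hbig', fun l X hX c => sym_inf ((hxs l).symmetries X hX c),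
      fun l => (hd l).le, fun l j => (hxs l).invertible j⟩, fun l => (hxs l).field, fun l => (hxs l).independent,
      fun l => ⟨(hxs l).known.algebraic, (hxs l).known.value⟩, fun l ht Y hY => (hxs l).tangent ht Y fun F hF => by
        rw [← Pool.Agent.H885.eval_DVT]
        exact hY F hF, fun l => (hxs l).torus⟩
  refine ⟨ρ, hρ, fun l => ?_⟩
  unfold Fibres.DefectAtMost
  rw [← hd l]
  exact hρ' l

/-- **The theorem.** Part 1: the sum of the defects of separated tuples of fibres is at most `s` (up to `ℓ` for each tuple).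
Part 2: the number of exceptional denominators with defects larger than `r`. -/
theorem result (m n N M q s ℓ t u e δ : ℕ) :
    ∃ E : ℕ, ∀ (β : Fin s → ℂ) (H : ℝ) (h w b₀ : ℕ), 1 ≤ H → (2 * H * ((h : ℝ) + w + 2)) ^ E ≤ (b₀ : ℝ) →
    (∀ (L : ℕ) (x : Fin L → Fibres m n N ℓ t u), (∀ l, (x l).Valid q M e β H h w b₀) →
      (∀ l l', l ≠ l' → Separated H h (x l) (x l')) →
      ∃ ρ : Fin L → ℕ, ∑ l, ρ l ≤ s ∧ ∀ l, (x l).DefectAtMost e δ (ρ l + ℓ)) ∧
    ∀ r : ℕ, ℓ ≤ r → ∃ F : Finset ℕ, F.card ≤ M * (s / (r + 1 - ℓ)) ∧
      ∀ x : Fibres m n N ℓ t u, x.Valid q M e β H h w b₀ → (∀ j, ∀ c ∈ F, Far m H h (x.b j) c) →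
      x.DefectAtMost e δ r := by
  classical
  choose E hE using core m n N q s ℓ t u e δ
  set D : ℕ := Module.finrank ℂ (Fin N → Matrix (Fin n) (Fin n) ℂ) with hD
  set E' : ℕ := ∑ L ∈ Finset.range (s + 2), ∑ d : Fin L → Fin (D + 1), E L fun l => (d l : ℕ) with hE'
  have hle : ∀ L, L ≤ s + 1 → ∀ d : Fin L → ℕ, (∀ l, d l ≤ D) → E L d ≤ E' := by
    intro L hL d hd
    have h1 := Finset.single_le_sum (f := fun L => ∑ d : Fin L → Fin (D + 1), E L fun l => (d l : ℕ))
      (fun _ _ => Nat.zero_le _) (Finset.mem_range.2 (by omega : L < s + 2))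
    have h2 := Finset.single_le_sum (f := fun d : Fin L → Fin (D + 1) => E L fun l => (d l : ℕ))
      (fun _ _ => Nat.zero_le _) (Finset.mem_univ fun l => (⟨d l, Nat.lt_succ_of_le (hd l)⟩ : Fin (D + 1)))
    exact h2.trans h1
  refine ⟨E', fun β H h w b₀ hH hbig => ?_⟩
  have hx1 : (1 : ℝ) ≤ 2 * H * ((h : ℝ) + w + 2) := by
    have h1 : (0 : ℝ) ≤ h := by positivity
    have h2 : (0 : ℝ) ≤ w := by positivity
    nlinarith
  -- at most `s + 1` tuples
  have hcore : ∀ (L : ℕ) (x : Fin L → Fibres m n N ℓ t u), L ≤ s + 1 → (∀ l, (x l).Valid q M e β H h w b₀) →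
      (∀ l l', l ≠ l' → Separated H h (x l) (x l')) →
      ∃ ρ : Fin L → ℕ, ∑ l, ρ l ≤ s ∧ ∀ l, (x l).DefectAtMost e δ (ρ l + ℓ) := by
    intro L x hL hx hsep
    refine hE L (fun l => Module.finrank ℂ (x l).𝔤) M β H h w b₀ hH ?_ x hx hsep fun l => rfl
    exact (pow_le_pow_right₀ hx1 (hle L hL _ fun l => Submodule.finrank_le _)).trans hbig
  -- the defect
  have hex : ∀ x : Fibres m n N ℓ t u, ∃ ρ, x.DefectAtMost e δ (ρ + ℓ) := by
    intro x
    refine ⟨Module.finrank ℂ x.𝔤 + t, ?_⟩
    unfold Fibres.DefectAtMost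
    have h1 : Module.finrank ℂ x.𝔤 + t - (Module.finrank ℂ x.𝔤 + t + ℓ) = 0 := by omega
    rw [h1]
    exact Pool.Agent.H885.trD_zero _ _
  set df : Fibres m n N ℓ t u → ℕ := fun x => Nat.find (hex x) with hdf
  have hdf1 : ∀ x : Fibres m n N ℓ t u, x.DefectAtMost e δ (df x + ℓ) := fun x => Nat.find_spec (hex x)
  have hdf2 : ∀ (x : Fibres m n N ℓ t u) (ρ : ℕ), x.DefectAtMost e δ (ρ + ℓ) → df x ≤ ρ := fun x ρ hρ => Nat.find_min' (hex x) hρ
  have hmain : ∀ (L : ℕ) (x : Fin L → Fibres m n N ℓ t u), (∀ l, (x l).Valid q M e β H h w b₀) →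
      (∀ l l', l ≠ l' → Separated H h (x l) (x l')) → ∑ l, df (x l) ≤ s := by
    intro L x hx hsep
    -- subsets
    have hsub : ∀ Λ : Finset (Fin L), Λ.card ≤ s + 1 → ∑ l ∈ Λ, df (x l) ≤ s := by
      intro Λ hΛ
      set f := Λ.orderEmbOfFin rfl with hf
      obtain ⟨ρ, hρ, hρ'⟩ := hcore Λ.card (fun i => x (f i)) hΛ (fun i => hx _) fun i i' hii =>
        hsep _ _ fun h1 => hii (f.injective h1)
      have h1 : ∑ i : Fin Λ.card, df (x (f i)) = ∑ l ∈ Λ, df (x l) := by
        have h2 : Λ = Finset.univ.map f.toEmbedding := by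
          rw [hf, ← Finset.coe_inj]
          simp
        conv_rhs => rw [h2, Finset.sum_map]
      rw [← h1]
      exact (Finset.sum_le_sum fun i _ => hdf2 _ _ (hρ' i)).trans hρ
    set Λ := Finset.univ.filter fun l => df (x l) ≠ 0 with hΛ
    have h1 : ∑ l, df (x l) = ∑ l ∈ Λ, df (x l) := by
      rw [hΛ, Finset.sum_filter_ne_zero]
    rcases le_or_gt Λ.card (s + 1) with h2 | h2
    · rw [h1]
      exact hsub Λ h2
    · obtain ⟨Λ', hΛ', hcard⟩ := Finset.exists_subset_card_eq (s := Λ) h2.le
      have h3 := hsub Λ' hcard.le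
      have h4 : Λ'.card ≤ ∑ l ∈ Λ', df (x l) := by
        rw [Finset.card_eq_sum_ones]
        refine Finset.sum_le_sum fun l hl => ?_
        have := (Finset.mem_filter.1 (hΛ' hl)).2
        omega
      omega
  refine ⟨fun L x hx hsep => ⟨fun l => df (x l), hmain L x hx hsep, fun l => hdf1 _⟩, fun r hr => ?_⟩
  -- the exceptional denominators
  set P : ℕ → Prop := fun p => ∃ x : Fin p → Fibres m n N ℓ t u, (∀ l, (x l).Valid q M e β H h w b₀) ∧
    (∀ l l', l ≠ l' → Separated H h (x l) (x l')) ∧ ∀ l, ¬ (x l).DefectAtMost e δ r with hP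
  have hPle : ∀ p, P p → p ≤ s / (r + 1 - ℓ) := by
    rintro p ⟨x, hx, hsep, hbad⟩
    rw [Nat.le_div_iff_mul_le (by omega)]
    have h1 := hmain p x hx hsep
    have h2 : ∀ l, r + 1 - ℓ ≤ df (x l) := by
      intro l
      by_contra hcon
      apply hbad l
      refine Pool.Agent.H885.TrD.mono (t := Module.finrank ℂ (x l).𝔤 + t - (df (x l) + ℓ)) ?_ (hdf1 (x l))
      omega
    have h3 : ∑ _l : Fin p, (r + 1 - ℓ) ≤ ∑ l, df (x l) := Finset.sum_le_sum fun l _ => h2 l
    rw [Finset.sum_const, Finset.card_univ, Fintype.card_fin, smul_eq_mul] at h3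
    exact h3.trans h1
  have hP0 : P 0 := ⟨fun l => l.elim0, fun l => l.elim0, fun l => l.elim0, fun l => l.elim0⟩
  obtain ⟨p, hPp, hPp1⟩ : ∃ p, P p ∧ ¬ P (p + 1) := by
    by_contra hcon
    push Not at hcon
    have h1 : ∀ p, P p := by
      intro p
      induction p with
      | zero => exact hP0
      | succ p ih => exact hcon p ih
    have := hPle _ (h1 (s / (r + 1 - ℓ) + 1))
    omega
  have hple := hPle p hPp
  obtain ⟨x, hx, hsep, hbad⟩ := hPp
  refine ⟨Finset.univ.biUnion fun l => Finset.univ.image (x l).b, ?_, fun y hy hyF => ?_⟩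
  · refine Finset.card_biUnion_le.trans ?_
    refine (Finset.sum_le_card_nsmul _ _ M fun l _ => (hx l).different).trans ?_
    rw [Finset.card_univ, Fintype.card_fin, smul_eq_mul, mul_comm]
    exact Nat.mul_le_mul_left _ hple
  · by_contra hybad
    apply hPp1
    refine ⟨Fin.cons y x, fun l => ?_, fun l l' hll i j => ?_, fun l => ?_⟩
    · refine Fin.cases ?_ (fun l => ?_) l
      · exact hy
      · exact hx l
    · have hin : ∀ l j, (x l).b j ∈ Finset.univ.biUnion fun l => Finset.univ.image (x l).b := fun l j =>
        Finset.mem_biUnion.2 ⟨l, Finset.mem_univ _, Finset.mem_image_of_mem _ (Finset.mem_univ _)⟩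
      rcases Fin.eq_zero_or_eq_succ l with rfl | ⟨l, rfl⟩ <;> rcases Fin.eq_zero_or_eq_succ l' with rfl | ⟨l', rfl⟩
      · exact absurd rfl hll
      · rw [Fin.cons_zero, Fin.cons_succ]
        exact hyF i _ (hin l' j)
      · rw [Fin.cons_zero, Fin.cons_succ]
        exact far_symm (hyF j _ (hin l i))
      · rw [Fin.cons_succ, Fin.cons_succ]
        exact hsep l l' (fun h1 => hll (by rw [h1])) i j
    · refine Fin.cases ?_ (fun l => ?_) l
      · exact hybad
      · exact hbad l

end Pool.Agent.Results.MP_caab05_ag.AbsoluteDefects
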