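import Pool.Agent.H885.BaseU
import Pool.Agent.H885.FinS
import Pool.Graph.R_pool_sql_team_seeded_620a6dc7.Helper880_R3.Res

/-!
# The torsor form of the period conjecture for families over bases of any dimension near a fibre with few periods

Let `X → B` be a smooth projective family over `ℚ`, `B` open in the affine space of **any dimension `m`**, `0 ∈ B(ℚ)`,
and let `P(x) = C Z(x)` be the period matrix of (a direct factor of) the cohomology of the fibres near `0`; `Z` is a
fundamental matrix of the Gauss-Manin connection (a matrix of G-functions over `ℚ` in the `m` variables `x`) and `C` is the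
matrix of the periods of the central fibre `X_0`. Let `M_0` be another object over `ℚ` with period matrix `C₀`. For rational
points `x_1, …, x_N ∈ B(ℚ)` let

  `c = C₀ ⊕ P(x_1) ⊕ … ⊕ P(x_N)`,

the period matrix of `M_0 ⊕ ⨁ M_{x_j}`. Grothendieck's conjecture implies that the torsor of motivic isomorphisms of
`H_dR` and `H_B` is contained, up to connected components, in all `K`-subtorsors `T` with `c ∈ T`, for all number fields `K`.

The theorems of this kind which are known (also `AllFibresFewCentralPeriods`, which treats the points `x = 1 / t` of a fixed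
one-parameter family) are for a fixed family with one parameter, and the constants depend on it in an unknown way; for
`m > 1` there is no statement about a set of points which is Zariski dense in `B`. Here we show:

**Theorem.** Assume that up to one common factor the entries of `C₀` and `C` are algebraic over a field generated by `s`
numbers. There is `E`, which depends only on `m, n, N, q, D, C₀, C`, such that for

* all tuples of families over bases of dimension `m`, that is, of `n × n` systems `T ∂Z_j / ∂x_i = Z_j A_{j i}` of degree at most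
  `q`, for which the height of the system and the growth constants of the coefficients and of the denominators of
  `Z_j` and `Z_j⁻¹` are at most `H` (for instance `Z_j = Z` for all `j`, and then `H` is a constant of the family),
* **all** rational points `x_j = a_j / b`, `a_j ∈ ℤ^m`, `b ∈ ℕ`, such that `(2 H (max |a_j| + 2))^E ≤ b`; if `0` is a pole of
  the system then the line `ℚ a_j` must not be contained in the polar locus `T = 0`,
* all Lie algebras `𝔤` of infinitesimal symmetries of the restrictions of the `Z_j` to the lines `ℚ a_j` (it is sufficient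
  that `exp (𝔤^N)` is contained in the differential Galois group of the restricted systems, the Zariski closure of
  the monodromy) which are semisimple (or have only quotients without centre) and have no proper subalgebra of
  codimension at most `s`,
* **all** number fields `K` with `[K : ℚ] ≤ D` and **all** `K`-subtorsors `T ∋ c` (defined by equations of any degree):

1. `T` is stable under `1 × ∏ exp (C 𝔤 C⁻¹)`.
2. If `𝔤` contains the Lie algebra of the special isometry group of a form `B` (big monodromy), then `T` is, in the torsor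
   of all isomorphisms `x_0 ⊕ ⨁ X_j` which respect the polarisations, the full inverse image of its image under
   `(x_0, det X_1, …, det X_N)` (without the determinants in the alternating case).
3. In the absolute case `M_0 = ℚ(-1)`, `C₀ = 2 π i`, `T` is equal to the torsor `T_pol` of all isomorphisms which respect
   the polarisations (and determinants) as soon as it is contained in it; so `T_pol` is the torsor of motivic
   isomorphisms, and it is the smallest `K`-subtorsor through `c`.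

There are no exceptional points. For a fixed family the points `(x_1, …, x_N)` with `(2 H (max |a_j| + 2))^E ≤ b` are Zariski
dense in `B^N`, and in the metric of `B(ℝ)` they come from all rational directions. For the special isometry groups of forms
`B` we show that the condition on subalgebras holds if `s ≤ n - 2` (alternating), `4 s < n` (symmetric) and `2 s + 2 < n`
(`B = 0`). No condition of the kind of Galochkin's is assumed.

Examples. (a) All hypersurfaces `b F_0 + G = 0`, `F_0` the Fermat form of degree `d` in `k + 2` variables, `G` **any**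
integral form of degree `d` with `(|G| + 2)^E ≤ b` for which the monodromy of the pencil spanned by `F_0` and `G` is Zariski
dense in `Sp` or `O` (this is true for all `G` outside a proper closed cone): `s ≤ φ(d) / 2 + 1`, and `n` is about
`d^(k + 1)`. The same for tuples of such hypersurfaces. (b) All polarised abelian varieties over `ℚ` of dimension `g` near a
CM point of the moduli space, in directions with generic monodromy, `s ≤ g + 1 ≤ 2 g - 2` for `g ≥ 3`; for instance the
Jacobians of the curves `y² = x^(2 g + 1) + 1 + G(x) / b`. (c) The same for several families: `H` may grow with `b`, for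
instance the family may be replaced by its pull backs under all polynomial maps of height at most `b^(1 / E)`.

Only subtorsors are treated: the Zariski closure of the period point is not contained in any smaller subtorsor.

Proof (`Pool/Agent/H885`). New ingredients: (i) a linear independence theorem for values of G-functions at `1 / t`
(`Gr`, `Sel`, `Lift`) in which all constants are explicit powers of the height of the system and **no** independence of the
functions is assumed: each `ℚ`-linear relation between the values is the specialisation of a relation between the functions;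
(ii) Galochkin's condition is automatic with the same constants (`Sys`); (iii) the height of the restriction to the line
through `0` with direction `a` is at most `(2 H (|a| + 2))^(E₀)` (`Line`, `BaseU`), and the value of the restriction at `1 / b`
is the value at `a / b`; (iv) hence relations of bounded degree between the values are preserved along the curves
`exp (s X_j) Z_j(x_j)`, `X_j ∈ 𝔤` (`RelL`, `CurT`); (v) ultraproducts of sequences of families, points, Lie algebras and torsors
(`UltS`, `CoreS`, `FinS`), where the argument of `Helper880_R3` on normalisers applies also if the Lie algebra is not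
constant. The consequences 2 and 3 of 1 are from `Helper880_R3`.
-/

set_option autoImplicit false

open PowerSeries Filter
open scoped Matrix

namespace Pool.Agent.Results.MP_caab05_ag.AllFibresAnyBase

section several
variable {n m N : ℕ}

/-- an integer polynomial in `m` variables as a power series with rational coefficients -/
noncomputable def toQ (P : MvPolynomial (Fin m) ℤ) : MvPowerSeries (Fin m) ℚ :=
  ((P.map (Int.castRingHom ℚ) : MvPolynomial (Fin m) ℚ) : MvPowerSeries (Fin m) ℚ)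

/-- the partial derivative `∂f / ∂x_i` -/
noncomputable def partialD (i : Fin m) (f : MvPowerSeries (Fin m) ℚ) : MvPowerSeries (Fin m) ℚ :=
  fun ν => ((ν i : ℚ) + 1) * MvPowerSeries.coeff (ν + Finsupp.single i 1) f

/-- `Z_1, …, Z_N` are invertible `n × n` matrices of G-functions in `m` variables with rational coefficients, `W_j = Z_j⁻¹`,
which solve the systems `T ∂Z_j / ∂x_i = Z_j A_{j i}`, `i = 1, …, m`. The degrees of `T` and `A_{j i}` are at most `q`; the
absolute values of their coefficients and the growth of the coefficients of `Z_j` and of the denominators of the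
coefficients of `Z_j` and `W_j` are bounded by `H`. -/
structure Family (q : ℕ) (H : ℝ) (T : MvPolynomial (Fin m) ℤ) (A : Fin N → Fin m → Fin n → Fin n → MvPolynomial (Fin m) ℤ)
    (Z W : Fin N → Matrix (Fin n) (Fin n) (MvPowerSeries (Fin m) ℚ)) : Prop where
  /-- the bound is at least `1` -/
  one_le : 1 ≤ H
  /-- the degree of `T` -/
  degT : T.totalDegree ≤ q
  /-- the height of `T` -/
  sizeT : ∀ ν, |((T.coeff ν : ℤ) : ℝ)| ≤ H
  /-- the degrees of the `A_{j i}` -/
  degA : ∀ j i a b, (A j i a b).totalDegree ≤ q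
  /-- the heights of the `A_{j i}` -/
  sizeA : ∀ j i a b ν, |(((A j i a b).coeff ν : ℤ) : ℝ)| ≤ H
  /-- the differential equations -/
  ode : ∀ j i a b, toQ T * partialD i (Z j a b) = ∑ l, Z j a l * toQ (A j i l b)
  /-- `W_j` is the inverse of `Z_j` -/
  inv : ∀ j, W j * Z j = 1
  /-- the growth of the coefficients -/
  size : ∀ j a b (ν : Fin m →₀ ℕ), |((MvPowerSeries.coeff ν (Z j a b) : ℚ) : ℝ)| ≤ H ^ (∑ i, ν i + 1)
  /-- the growth of the common denominators of the coefficients -/
  den : ∀ k : ℕ, ∃ d : ℕ, 0 < d ∧ (d : ℝ) ≤ H ^ (k + 1) ∧ ∀ j a b (ν : Fin m →₀ ℕ), ∑ i, ν i ≤ k →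
    (∃ z : ℤ, (d : ℚ) * MvPowerSeries.coeff ν (Z j a b) = z) ∧ ∃ z : ℤ, (d : ℚ) * MvPowerSeries.coeff ν (W j a b) = z

/-- the power series `f(x a)` in the variable `x`, the restriction of `f` to the line through `0` with direction `a` -/
noncomputable def restrict (a : Fin m → ℤ) (f : MvPowerSeries (Fin m) ℚ) : PowerSeries ℚ :=
  PowerSeries.mk fun k => ∑ ν ∈ (Finset.univ : Finset (Fin m)).finsuppAntidiag k,
    MvPowerSeries.coeff ν f * ∏ i, (a i : ℚ) ^ ν i

/-- the value `Z(a / b)`, that is, the value of the restriction of `Z` to the line at `x = 1 / b` -/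
noncomputable def value (Z : Matrix (Fin n) (Fin n) (MvPowerSeries (Fin m) ℚ)) (a : Fin m → ℤ) (b : ℕ) :
    Matrix (Fin n) (Fin n) ℂ :=
  Matrix.of fun i j => ((∑' k : ℕ, ((coeff k (restrict a (Z i j)) : ℚ) : ℝ) * (1 / (b : ℝ)) ^ k : ℝ) : ℂ)

/-- the restriction of `Z` to the line with direction `a`, over `ℂ` -/
noncomputable def onLine (a : Fin m → ℤ) (Z : Matrix (Fin n) (Fin n) (MvPowerSeries (Fin m) ℚ)) :
    Matrix (Fin n) (Fin n) (PowerSeries ℂ) :=
  Z.map fun f => PowerSeries.map (algebraMap ℚ ℂ) (restrict a f)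

/-- `(X_1, …, X_N)` is an infinitesimal symmetry of the matrices `Y_1, …, Y_N` of power series: for all polynomial relations
`R(x, Y_1(x), …, Y_N(x)) = 0` over `ℂ[x]` the derivative of `R(x, (1 + ε X_1) Y_1(x), …, (1 + ε X_N) Y_N(x))` at `ε = 0` is
zero. -/
def Symmetry (Y : Fin N → Matrix (Fin n) (Fin n) (PowerSeries ℂ)) (X : Fin N → Matrix (Fin n) (Fin n) ℂ) : Prop :=
  ∀ R : MvPolynomial (Fin N × Fin n × Fin n) (Polynomial ℂ),
    MvPolynomial.aeval (fun σ => Y σ.1 σ.2.1 σ.2.2) R = 0 →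
    ∑ σ, MvPolynomial.aeval (fun σ => Y σ.1 σ.2.1 σ.2.2) (MvPolynomial.pderiv σ R) *
      ((X σ.1).map (PowerSeries.C (R := ℂ)) * Y σ.1) σ.2.1 σ.2.2 = 0

end several

section lie
variable {n : ℕ}

/-- `𝔤` is closed under commutators -/
def IsLieAlg (𝔤 : Submodule ℂ (Matrix (Fin n) (Fin n) ℂ)) : Prop := ∀ x ∈ 𝔤, ∀ y ∈ 𝔤, x * y - y * x ∈ 𝔤

/-- all quotients `𝔤 / I` have trivial centre; semisimple Lie algebras have this property -/
def CentreFree (𝔤 : Submodule ℂ (Matrix (Fin n) (Fin n) ℂ)) : Prop :=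
  ∀ I : Submodule ℂ (Matrix (Fin n) (Fin n) ℂ), I ≤ 𝔤 → (∀ x ∈ 𝔤, ∀ y ∈ I, x * y - y * x ∈ I) →
    ∀ x ∈ 𝔤, (∀ y ∈ 𝔤, x * y - y * x ∈ I) → x ∈ I

/-- all proper subalgebras of `𝔤` have codimension larger than `r` -/
def NoSmall (r : ℕ) (𝔤 : Submodule ℂ (Matrix (Fin n) (Fin n) ℂ)) : Prop :=
  ∀ 𝔥 : Submodule ℂ (Matrix (Fin n) (Fin n) ℂ), 𝔥 ≤ 𝔤 → IsLieAlg 𝔥 →
    Module.finrank ℂ 𝔤 ≤ Module.finrank ℂ 𝔥 + r → 𝔤 ≤ 𝔥

/-- nondegenerate alternating forms -/
def Symplectic (B : Matrix (Fin n) (Fin n) ℂ) : Prop := IsUnit B ∧ Bᵀ = -B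

/-- The form is zero, or nondegenerate and alternating, or nondegenerate and symmetric of rank different from `2`. -/
def Classical (B : Matrix (Fin n) (Fin n) ℂ) : Prop := B = 0 ∨ Symplectic B ∨ (IsUnit B ∧ Bᵀ = B ∧ n ≠ 2)

/-- The form is zero and `2 r + 2 < n`, or it is nondegenerate and alternating and `r ≤ n - 2`, or nondegenerate and
symmetric and `4 r < n`, `n ≠ 2`. -/
def Small (r : ℕ) (B : Matrix (Fin n) (Fin n) ℂ) : Prop :=
  (B = 0 ∧ 2 * r + 2 < n) ∨ (Symplectic B ∧ r + 2 ≤ n) ∨ (IsUnit B ∧ Bᵀ = B ∧ n ≠ 2 ∧ 4 * r < n)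

/-- `X` is in the Lie algebra of the group of all matrices of determinant `1` which respect `B` -/
def IsInfinitesimal (B X : Matrix (Fin n) (Fin n) ℂ) : Prop := X.trace = 0 ∧ X * B + B * Xᵀ = 0

/-- `𝔤` is a Lie algebra, all its quotients have trivial centre, and all proper subalgebras have codimension larger than
`r`; or it is the Lie algebra of the special isometry group of a form for which `Small r B` holds (this case is in fact
contained in the first one, as we show). -/
def Admissible (r : ℕ) (𝔤 : Submodule ℂ (Matrix (Fin n) (Fin n) ℂ)) : Prop :=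
  (IsLieAlg 𝔤 ∧ CentreFree 𝔤 ∧ NoSmall r 𝔤) ∨ ∃ B, Small r B ∧ ∀ X, X ∈ 𝔤 ↔ IsInfinitesimal B X

/-- up to a common factor the entries of `C₀` and `C` are algebraic over a field generated by `s` numbers -/
def FewPeriods {r : ℕ} (s : ℕ) (C₀ : Matrix (Fin r) (Fin r) ℂ) (C : Matrix (Fin n) (Fin n) ℂ) : Prop :=
  ∃ (b : Fin s → ℂ) (κ : ℂ), κ ≠ 0 ∧ (∀ i j, IsAlgebraic (IntermediateField.adjoin ℚ (Set.range b)) (κ * C₀ i j)) ∧
    ∀ i j, IsAlgebraic (IntermediateField.adjoin ℚ (Set.range b)) (κ * C i j)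

end lie

/-- `T` is (the set of complex points of) a `K`-subtorsor of `GL_B = Iso (M_dR, M_B)`: it is closed under `x y⁻¹ z`, and
it is defined in `GL_B` by polynomials with coefficients in `K`. -/
def IsSubtorsor (K : Subfield ℂ) {B : Type} [Fintype B] [DecidableEq B] (T : Set (Matrix B B ℂ)) : Prop :=
  (∀ x ∈ T, ∀ y ∈ T, ∀ z ∈ T, x * y⁻¹ * z ∈ T) ∧ ∃ I : Set (MvPolynomial (B × B) K), ∀ x : Matrix B B ℂ, x ∈ T ↔
    IsUnit x ∧ ∀ p ∈ I, MvPolynomial.eval (fun b => x b.1 b.2) (MvPolynomial.map (algebraMap K ℂ) p) = 0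

section
variable {n N r : ℕ}

/-- the block matrix `x ⊕ X_1 ⊕ … ⊕ X_N` -/
def total (x : Matrix (Fin r) (Fin r) ℂ) (X : Fin N → Matrix (Fin n) (Fin n) ℂ) :
    Matrix (Fin r ⊕ (Fin n × Fin N)) (Fin r ⊕ (Fin n × Fin N)) ℂ :=
  Matrix.fromBlocks x 0 0 (Matrix.blockDiagonal X)

/-- the isomorphisms `X_j` respect the polarisations `Q_j` (de Rham) and `B` (Betti) up to the factors `μ_j` -/
def Respects (B : Matrix (Fin n) (Fin n) ℂ) (Q : Fin N → Matrix (Fin n) (Fin n) ℂ) (μ : Fin N → ℂ)
    (X : Fin N → Matrix (Fin n) (Fin n) ℂ) : Prop :=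
  (∀ j, μ j ≠ 0) ∧ ∀ j, X j * Q j * (X j)ᵀ = μ j • B

/-- The isomorphisms `z ⊕ … ⊕ z ⊕ X_1 ⊕ … ⊕ X_N` of an `r`-fold sum of the object `ℚ(-1)` and of the `M_j` which respect
the polarisations, with values in `ℚ(-w_j)`, and the identifications of `det M_j` with `ℚ(-m_j)` up to a twist. -/
def torsorOf (r : ℕ) (B : Matrix (Fin n) (Fin n) ℂ) (Q : Fin N → Matrix (Fin n) (Fin n) ℂ) (w m : Fin N → ℤ)
    (δ : Fin N → ℂ) : Set (Matrix (Fin r ⊕ (Fin n × Fin N)) (Fin r ⊕ (Fin n × Fin N)) ℂ) :=
  {y | ∃ z : ℂ, z ≠ 0 ∧ ∃ X : Fin N → Matrix (Fin n) (Fin n) ℂ, y = total (z • 1) X ∧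
    ∀ j, X j * Q j * (X j)ᵀ = z ^ (w j) • B ∧ (Symplectic B ∨ (X j).det = δ j * z ^ (m j))}

/-- The conclusion for one tuple of parameters; `P j` is the period matrix of the fibre. -/
def Good (D : ℕ) (C₀ : Matrix (Fin r) (Fin r) ℂ) (C : Matrix (Fin n) (Fin n) ℂ)
    (𝔤 : Submodule ℂ (Matrix (Fin n) (Fin n) ℂ)) (P : Fin N → Matrix (Fin n) (Fin n) ℂ) : Prop :=
  ∀ K : Subfield ℂ, FiniteDimensional ℚ K → Module.finrank ℚ K ≤ D →
  ∀ T : Set (Matrix (Fin r ⊕ (Fin n × Fin N)) (Fin r ⊕ (Fin n × Fin N)) ℂ), IsSubtorsor K T → total C₀ P ∈ T →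
  -- 1: stability
  (∀ X : Fin N → Matrix (Fin n) (Fin n) ℂ, (∀ j, X j ∈ 𝔤) → ∀ x ∈ T,
    total 1 (fun j => NormedSpace.exp (C * X j * C⁻¹)) * x ∈ T) ∧
  -- 2: classical monodromy groups, relative case
  (∀ B : Matrix (Fin n) (Fin n) ℂ, Classical B → (∀ X, IsInfinitesimal B X → X ∈ 𝔤) →
    ∀ (Q : Fin N → Matrix (Fin n) (Fin n) ℂ) (μ : Fin N → ℂ) (x₀ : Matrix (Fin r) (Fin r) ℂ)
      (X Y : Fin N → Matrix (Fin n) (Fin n) ℂ), Respects (C * B * Cᵀ) Q μ X → Respects (C * B * Cᵀ) Q μ Y →
      (∀ j, Symplectic B ∨ (X j).det = (Y j).det) → total x₀ X ∈ T → total x₀ Y ∈ T) ∧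
  -- 3: classical monodromy groups, absolute case
  (0 < r → C₀ = (2 * Real.pi * Complex.I : ℂ) • 1 →
    ∀ B : Matrix (Fin n) (Fin n) ℂ, Classical B → (∀ X, IsInfinitesimal B X → X ∈ 𝔤) →
    ∀ (Q : Fin N → Matrix (Fin n) (Fin n) ℂ) (w m : Fin N → ℤ) (δ : Fin N → ℂ),
      T ⊆ torsorOf r (C * B * Cᵀ) Q w m δ → T = torsorOf r (C * B * Cᵀ) Q w m δ)

end

/-! ## Proofs -/

theorem base_of {m n N q : ℕ} {H : ℝ} {T : MvPolynomial (Fin m) ℤ} {A : Fin N → Fin m → Fin n → Fin n → MvPolynomial (Fin m) ℤ}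
    {Z W : Fin N → Matrix (Fin n) (Fin n) (MvPowerSeries (Fin m) ℚ)} (h : Family q H T A Z W) :
    Pool.Agent.H885.GBaseU q H T A Z W :=
  ⟨h.one_le, h.degT, h.sizeT, h.degA, h.sizeA, h.ode, h.inv, h.size, h.den⟩

theorem sym_inf {m n N : ℕ} {Z : Fin N → Matrix (Fin n) (Fin n) (MvPowerSeries (Fin m) ℚ)} {a : Fin N → Fin m → ℤ}
    {X : Fin N → Matrix (Fin n) (Fin n) ℂ} (h : Symmetry (fun j => onLine (a j) (Z j)) X) :
    Pool.Agent.H885.InfT (fun j => Pool.Agent.H885.lineM (a j) (Z j)) X := by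
  intro R hR
  refine Eq.trans ?_ (h R hR)
  refine Finset.sum_congr rfl fun σ _ => ?_
  rw [Matrix.mul_apply]
  rfl

theorem small_cod {n r : ℕ} (hn : 0 < n) {B : Matrix (Fin n) (Fin n) ℂ} (h : Small r B) :
    CentreFree (Pool.Agent.Helper880_R3.lieB B) ∧ NoSmall r (Pool.Agent.Helper880_R3.lieB B) := by
  rcases h with ⟨rfl, h⟩ | ⟨⟨h1, h2⟩, h3⟩ | ⟨h1, h2, h3, h4⟩
  · exact ⟨Pool.Agent.Helper880_R3.cf_sl hn, Pool.Agent.Helper880_R3.cod_sl h⟩
  · have hB := (Matrix.isUnit_iff_isUnit_det _).1 h1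
    refine ⟨Pool.Agent.Helper880_R3.cf_form (ε := -1) hB (by ring) (by rw [h2, neg_one_smul]) ?_,
      Pool.Agent.Helper880_R3.cod_sp hB h2 (by omega) (by omega)⟩
    have h5 : (8 : ℂ) - 4 * -1 * n = ((8 + 4 * n : ℕ) : ℂ) := by
      push_cast
      ring
    rw [h5]
    exact_mod_cast (by omega : 8 + 4 * n ≠ 0)
  · have hB := (Matrix.isUnit_iff_isUnit_det _).1 h1
    refine ⟨Pool.Agent.Helper880_R3.cf_form (ε := 1) hB (by ring) (by rw [h2, one_smul]) ?_,
      Pool.Agent.Helper880_R3.cod_so hB h2 h4⟩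
    intro h5
    have h6 : (n : ℂ) = ((2 : ℕ) : ℂ) := by
      push_cast
      linear_combination (-1 / 4 : ℂ) * h5
    exact h3 (by exact_mod_cast h6)

theorem adm {n r : ℕ} (hn : 0 < n) {𝔤 : Submodule ℂ (Matrix (Fin n) (Fin n) ℂ)} (h : Admissible r 𝔤) :
    IsLieAlg 𝔤 ∧ CentreFree 𝔤 ∧ NoSmall r 𝔤 := by
  rcases h with h | ⟨B, hB, h⟩
  · exact h
  · have h1 : 𝔤 = Pool.Agent.Helper880_R3.lieB B := Submodule.ext h
    rw [h1]
    exact ⟨Pool.Agent.Helper880_R3.lieB_lie B, small_cod hn hB⟩

/-- from stability to the consequences for classical monodromy groups -/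
theorem good_of {n N D r₀ : ℕ} (hN : 0 < N) {C₀ : Matrix (Fin r₀) (Fin r₀) ℂ} {C : Matrix (Fin n) (Fin n) ℂ}
    {𝔤 : Submodule ℂ (Matrix (Fin n) (Fin n) ℂ)} {P : Fin N → Matrix (Fin n) (Fin n) ℂ}
    (h : ∀ K : Subfield ℂ, FiniteDimensional ℚ K → Module.finrank ℚ K ≤ D →
      ∀ S : Set (Matrix (Fin r₀ ⊕ (Fin n × Fin N)) (Fin r₀ ⊕ (Fin n × Fin N)) ℂ), IsSubtorsor K S →
      total C₀ (fun j => C * P j) ∈ S → ∀ X : Fin N → Matrix (Fin n) (Fin n) ℂ, (∀ j, X j ∈ 𝔤) → ∀ x ∈ S,
      total 1 (fun j => NormedSpace.exp (C * X j * C⁻¹)) * x ∈ S) : Good D C₀ C 𝔤 fun j => C * P j := by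
  intro K hK hKD S hS hmem
  have hst := h K hK hKD S hS hmem
  have hS' := Pool.Agent.Y123.ST.subT_iff.1 hS
  have hC : IsUnit C.det := by
    have h1 := (Pool.Agent.Helper880_R3.Tot_unit (hS'.isUnit _ hmem)).2 ⟨0, hN⟩
    have h2 := (Matrix.isUnit_iff_isUnit_det _).1 h1
    rw [Matrix.det_mul] at h2
    exact isUnit_of_mul_isUnit_left h2
  have hgrp : ∀ B : Matrix (Fin n) (Fin n) ℂ, Classical B → (∀ X, IsInfinitesimal B X → X ∈ 𝔤) →
      ∀ g : Fin N → (Matrix (Fin n) (Fin n) ℂ)ˣ, (∀ j, g j ∈ Pool.Agent.Y123.GN.GB (C * B * Cᵀ)) →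
      ∀ x ∈ S, total 1 (fun j => (g j : Matrix (Fin n) (Fin n) ℂ)) * x ∈ S := fun B hB hB𝔤 g hg x hx =>
    Pool.Agent.Helper880_R3.grp_stab hS' hC (fun Y hY => hst Y fun j => hB𝔤 _ (hY j)) hB g hg hx
  refine ⟨hst, ?_, ?_⟩
  · intro B hB hB𝔤 Q μ x₀ X Y hX hY hd hx
    exact Pool.Agent.Helper880_R3.fibre_full hS' (hgrp B hB hB𝔤) hX.1 hx hX.2 hY.2 fun j =>
      (hd j).imp (fun h => Pool.Agent.Helper880_R3.Spf_conj hC h) id
  · intro hr hC₀ B hB hB𝔤 Q w m δ hSF
    have hKalg : ∀ x ∈ K, IsAlgebraic ℚ x := by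
      intro x hx
      have : NumberField K := { to_charZero := inferInstance, to_finiteDimensional := hK }
      have h6 : IsAlgebraic ℚ (⟨x, hx⟩ : K) := Algebra.IsAlgebraic.isAlgebraic _
      exact h6.algebraMap (A := ℂ)
    rw [hC₀] at hmem
    exact Pool.Agent.Helper880_R3.absolute hKalg hr hS' hmem (hgrp B hB hB𝔤) hSF

/-- **The theorem.** -/
theorem result (m n N q D r₀ s : ℕ) (hn : 0 < n) (hN : 0 < N) (C₀ : Matrix (Fin r₀) (Fin r₀) ℂ)
    (C : Matrix (Fin n) (Fin n) ℂ) (hfew : FewPeriods s C₀ C) :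
    ∃ E : ℕ, ∀ (H : ℝ) (T : MvPolynomial (Fin m) ℤ) (A : Fin N → Fin m → Fin n → Fin n → MvPolynomial (Fin m) ℤ)
      (Z W : Fin N → Matrix (Fin n) (Fin n) (MvPowerSeries (Fin m) ℚ)), Family q H T A Z W →
    ∀ (h b : ℕ) (a : Fin N → Fin m → ℤ), (∀ j i, |a j i| ≤ h) → (∀ j, restrict (a j) (toQ T) ≠ 0) →
      (2 * H * ((h : ℝ) + 2)) ^ E ≤ (b : ℝ) →
    ∀ 𝔤 : Submodule ℂ (Matrix (Fin n) (Fin n) ℂ), Admissible s 𝔤 →
      (∀ X : Fin N → Matrix (Fin n) (Fin n) ℂ, (∀ j, X j ∈ 𝔤) → Symmetry (fun j => onLine (a j) (Z j)) X) →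
      Good D C₀ C 𝔤 fun j => C * value (Z j) (a j) b := by
  obtain ⟨q', E₀, h1⟩ := Pool.Agent.H885.base_sysU m n N q
  obtain ⟨E, hE⟩ := Pool.Agent.H885.uniform n N q' D r₀ s hn C₀ C hfew
  refine ⟨(E₀ + 1) * E, fun H T A Z W hG h b a ha hTa hb 𝔤 h𝔤 hI => good_of hN fun K hK hKD S hS' hmem X hX x hx => ?_⟩
  obtain ⟨hL, hq, hc⟩ := adm hn h𝔤
  obtain ⟨T', B', hT0, hS⟩ := h1 H T A Z W (base_of hG) h a ha hTa
  have hb' : (2 * (2 * H * ((h : ℝ) + 2)) ^ E₀) ^ E ≤ (b : ℝ) := by
    refine le_trans ?_ hb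
    have hH := hG.one_le
    have hh : (0 : ℝ) ≤ h := by positivity
    have hx2 : 2 ≤ 2 * H * ((h : ℝ) + 2) := by nlinarith
    rw [pow_mul]
    refine pow_le_pow_left₀ (by positivity) ?_ E
    rw [pow_succ, mul_comm]
    exact mul_le_mul_of_nonneg_left hx2 (by positivity)
  exact hE _ T' B' _ _ hS hT0 b hb' 𝔤 hL hq hc (fun X hX => sym_inf (hI X hX)) K hK hKD S
    (Pool.Agent.Y123.ST.subT_iff.1 hS') hmem X hX x hx

end Pool.Agent.Results.MP_caab05_ag.AllFibresAnyBase
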