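import Pool.Agent.H885.BaseU
import Pool.Agent.H885.Mono
import Pool.Agent.H885.FewR

/-!
# Transcendence degrees of the periods of the fibres near arbitrary central fibres: the sum of the defects

For `j = 1, …, N` let `X_j → B_j` be a family of varieties over `ℚ`, `B_j` open in the affine space of **any dimension `m`**,
`0 ∈ B_j(ℚ)`, and let `P_j(x) = C_j Z_j(x)` be the period matrix of a cohomology group of rank `n` of the fibres near `0`;
`Z_j` is a fundamental matrix of the Gauss-Manin connection (a matrix of G-functions over `ℚ` in the `m` variables `x`)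
and `C_j` is the matrix of the periods of the central fibre. Grothendieck's conjecture predicts the transcendence degree of the
periods of the fibres at rational points `x_j = a_j / b_j`. Over the field of the periods of the central fibres the
predicted value is, outside of the Hodge locus, the dimension `d` of the differential Galois group of the restrictions of the
systems to the lines through `0` and the points (the Zariski closure of the monodromy; theorems of André and Ayoub for the
functions). The **defect** of the tuple of fibres is the difference of `d` and of the transcendence degree of its periods.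

**Theorem.** Fix `m, n, N, M, q, s, ℓ, e, δ`. There is `E` with the following property for all complex numbers
`β_1, …, β_s`, all `H, h, w` and all `b₀ ≥ (2 H (h + w + 2))^E`. We consider (`Fibres.Valid`)

* **all** tuples `b_1, …, b_N` of denominators in the window `[b₀, b₀ + w]`, at most `M` of them different, such that the
  distances of different `b_j` are larger than `2^(m+1) H (h + 2)`,
* **all** families over bases of dimension `m`, that is, all `n × n` systems `T ∂Z_j / ∂x_i = Z_j A_{j i}` of degree at
  most `q`, for which the height of the system and the growth constants of the coefficients and of the denominators of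
  `Z_j` and `Z_j⁻¹` are at most `H`,
* **all** numerators `a_j ∈ ℤ^m` with `|a_j| ≤ h`; if `0` is a pole of the system then the line `ℚ a_j` must not be contained
  in the polar locus `T = 0`,
* **all** numbers `γ_1, …, γ_ℓ` and **all** central fibres with periods (entries of the `C_j`) algebraic of degree at most
  `e` over `ℚ(β_1, …, β_s, γ_1, …, γ_ℓ)`, such that the period matrices `P_j(x_j)` are invertible,
* any space `𝔤` of tuples `(X_1, …, X_N)` of matrices such that, for each `c`, the tuple of the `X_j` with
  `b_j = c` is an infinitesimal symmetry of the restrictions of the `Z_j` with `b_j = c` to the lines `ℚ a_j`, for instance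
  the Lie algebra of the differential Galois group, of dimension `d` (for points with different denominators the symmetries
  are independent of each other, even if the families are equal, so then `d` is the sum of the dimensions).

The defect is at most `ρ`, in degree `δ`, if `dim 𝔤 - ρ` of the entries of the period matrices `P_j(x_j)` satisfy no
nonzero polynomial relation of degree at most `δ` with coefficients which are algebraic of degree at most `e` over
`ℚ(β_1, …, β_s, γ_1, …, γ_ℓ)` (for instance, coefficients in any number field of degree at most `e`, or polynomials of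
degree at most `e` in the `β_i` and `γ_i`). Then:

1. **The sum of the defects is at most `s`:** for any number of tuples of fibres as above, of any families, the denominators
   of which are at distance larger than `2^(m+1) H (h + 2)` for different tuples, there are `ρ_1, ρ_2, …` with
   `∑ ρ_l ≤ s` such that the defect of the tuple with number `l` is at most `ρ_l + ℓ`.
2. **Few exceptional denominators:** for each `r ≥ ℓ` there is a set `F` of at most `M ⌊s / (r + 1 - ℓ)⌋` denominators such
   that **all** tuples of fibres as above the denominators of which are at distance larger than `2^(m+1) H (h + 2)` from the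
   elements of `F` have a defect of at most `r`. The set `F` depends on `β_1, …, β_s` and on the window only, not on the
   families, the central fibres, the points, the number fields or `𝔤`.

For `r = s + ℓ` the set `F` is empty: the defect is at most `s + ℓ` for all points. For `r = ℓ = 0` and
`s = trdeg ℚ(C_1, …, C_N)` the transcendence degree of the periods over `ℚ̄(C_1, …, C_N)` is equal to the predicted one, in
bounded degree, with at most `M s` exceptional denominators in each window (up to their neighbours). The theorem holds also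
for mixed motives and for families without big monodromy; no structure of `𝔤` is used. The bound in part 1 is optimal: if
the `β_i` are algebraically independent values of entries of `Z_1` at one of the points then this fibre has the defect `s`.

Library results of this kind: `AllTuplesTranscendenceDegree` (MP_f11a48_ag) and `AllTuplesDegenerating` (MP_cbf1af_ag) treat
all `k`-tuples of points `1 / m_l` in short windows, for one fixed one-parameter family, with a total defect of at most `s`
(`s + 1` in the degenerate case); `AllFamiliesWindows` (MP_290158_ag) shows for one fixed one-parameter family that all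
relations of bounded degree are specialisations of functional relations with at most `s` (`s + 1`) exceptional points in
each window. In these theorems all constants depend on the family. New here are the uniformity (all families
of bounded degree over bases of any dimension, all rational points, all central fibres with periods in a given field, at
once, with an exceptional set which does not depend on them), the bound for the sum of the defects of fibres of
**different** families, and the bound `⌊s / (r + 1 - ℓ)⌋` for the number of defects larger than `r`.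

Bounded degree is essential for the method: nothing is said about relations of degree larger than `δ`. That the
period matrices of families have the form `C Z(x)` with `Z` as above, and the interpretation of `dim 𝔤`, are from the
literature and not part of the Lean theorem.

Proof (`Pool/Agent/H885`). As in `FewExceptionalDenominators` (this problem) an ultraproduct of a sequence of counterexamples
has, for each of the separated tuples and each symmetry `X`, a derivation of `*ℂ` over `*ℚ` which moves the values of the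
functions `Z_j` at this tuple by `X` and kills the values at all other tuples (`UnifS`); this uses a linear independence
theorem for values of G-functions without independence conditions and with explicit constants, and the analytic
continuation of the functions which belong to one denominator around their own singularities. Let `D_l` be the space of the
derivations which kill the values at the tuples with numbers `< l`, and `V_l` the space of the values of these derivations on
`β_1, …, β_s`; let `ρ_l = dim V_l - dim V_(l+1)`, so `∑ ρ_l ≤ s`. By linear algebra the derivations which kill the `β_i` and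
`γ_i` move the values at the tuple `l` in a space of dimension at least `dim 𝔤 - ρ_l - ℓ` (`dim_swapR`, `pigeonS`). So the
transcendence degree over the field of constants of these derivations, which contains all numbers of bounded degree over
`ℚ(β, γ)`, is at least `dim 𝔤 - ρ_l - ℓ` (`exists_ind`, `ind_seq`).
-/

set_option autoImplicit false

open PowerSeries Filter
open scoped Matrix

namespace Pool.Agent.Results.MP_caab05_ag.SumOfDefects

section several
variable {n m N : ℕ}

/-- an integer polynomial in `m` variables as a power series with rational coefficients -/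
noncomputable def toQ (P : MvPolynomial (Fin m) ℤ) : MvPowerSeries (Fin m) ℚ :=
  ((P.map (Int.castRingHom ℚ) : MvPolynomial (Fin m) ℚ) : MvPowerSeries (Fin m) ℚ)

/-- the partial derivative `∂f / ∂x_i` -/
noncomputable def partialD (i : Fin m) (f : MvPowerSeries (Fin m) ℚ) : MvPowerSeries (Fin m) ℚ :=
  fun ν => ((ν i : ℚ) + 1) * MvPowerSeries.coeff (ν + Finsupp.single i 1) f

/-- `Z` is an invertible `n × n` matrix of G-functions in `m` variables with rational coefficients, `W = Z⁻¹`, which
solves the system `T ∂Z / ∂x_i = Z A_i`, `i = 1, …, m`. The degrees of `T` and `A_i` are at most `q`; the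
absolute values of their coefficients and the growth of the coefficients of `Z` and of the denominators of the
coefficients of `Z` and `W` are bounded by `H`. -/
structure Family (q : ℕ) (H : ℝ) (T : MvPolynomial (Fin m) ℤ) (A : Fin m → Fin n → Fin n → MvPolynomial (Fin m) ℤ)
    (Z W : Matrix (Fin n) (Fin n) (MvPowerSeries (Fin m) ℚ)) : Prop where
  /-- the degree of `T` -/
  degT : T.totalDegree ≤ q
  /-- the height of `T` -/
  sizeT : ∀ ν, |((T.coeff ν : ℤ) : ℝ)| ≤ H
  /-- the degrees of the `A_i` -/
  degA : ∀ i a b, (A i a b).totalDegree ≤ q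
  /-- the heights of the `A_i` -/
  sizeA : ∀ i a b ν, |(((A i a b).coeff ν : ℤ) : ℝ)| ≤ H
  /-- the differential equations -/
  ode : ∀ i a b, toQ T * partialD i (Z a b) = ∑ l, Z a l * toQ (A i l b)
  /-- `W` is the inverse of `Z` -/
  inv : W * Z = 1
  /-- the growth of the coefficients -/
  size : ∀ a b (ν : Fin m →₀ ℕ), |((MvPowerSeries.coeff ν (Z a b) : ℚ) : ℝ)| ≤ H ^ (∑ i, ν i + 1)
  /-- the growth of the common denominators of the coefficients -/
  den : ∀ k : ℕ, ∃ d : ℕ, 0 < d ∧ (d : ℝ) ≤ H ^ (k + 1) ∧ ∀ a b (ν : Fin m →₀ ℕ), ∑ i, ν i ≤ k →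
    (∃ z : ℤ, (d : ℚ) * MvPowerSeries.coeff ν (Z a b) = z) ∧ ∃ z : ℤ, (d : ℚ) * MvPowerSeries.coeff ν (W a b) = z

/-- the power series `f(x a)` in the variable `x`, the restriction of `f` to the line through `0` with direction `a` -/
noncomputable def restrict (a : Fin m → ℤ) (f : MvPowerSeries (Fin m) ℚ) : PowerSeries ℚ :=
  PowerSeries.mk fun k => ∑ ν ∈ (Finset.univ : Finset (Fin m)).finsuppAntidiag k,
    MvPowerSeries.coeff ν f * ∏ i, (a i : ℚ) ^ ν i

/-- the value `Z(a / b)`, that is, the value of the restriction of `Z` to the line at `x = 1 / b` -/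
noncomputable def value (Z : Matrix (Fin n) (Fin n) (MvPowerSeries (Fin m) ℚ)) (a : Fin m → ℤ) (b : ℕ) :
    Matrix (Fin n) (Fin n) ℂ :=
  Matrix.of fun i j => ((∑' k : ℕ, ((coeff k (restrict a (Z i j)) : ℚ) : ℝ) * (1 / (b : ℝ)) ^ k : ℝ) : ℂ)

/-- the restriction of `Z` to the line with direction `a`, over `ℂ` -/
noncomputable def onLine (a : Fin m → ℤ) (Z : Matrix (Fin n) (Fin n) (MvPowerSeries (Fin m) ℚ)) :
    Matrix (Fin n) (Fin n) (PowerSeries ℂ) :=
  Z.map fun f => PowerSeries.map (algebraMap ℚ ℂ) (restrict a f)

/-- `(X_1, …, X_N)` is an infinitesimal symmetry of the matrices `Y_1, …, Y_N` of power series: for all polynomial relations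
`R(x, Y_1(x), …, Y_N(x)) = 0` over `ℂ[x]` the derivative of `R(x, (1 + ε X_1) Y_1(x), …, (1 + ε X_N) Y_N(x))` at `ε = 0` is
zero. -/
def Symmetry (Y : Fin N → Matrix (Fin n) (Fin n) (PowerSeries ℂ)) (X : Fin N → Matrix (Fin n) (Fin n) ℂ) : Prop :=
  ∀ R : MvPolynomial (Fin N × Fin n × Fin n) (Polynomial ℂ),
    MvPolynomial.aeval (fun σ => Y σ.1 σ.2.1 σ.2.2) R = 0 →
    ∑ σ, MvPolynomial.aeval (fun σ => Y σ.1 σ.2.1 σ.2.2) (MvPolynomial.pderiv σ R) *
      ((X σ.1).map (PowerSeries.C (R := ℂ)) * Y σ.1) σ.2.1 σ.2.2 = 0

end several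

/-- `y` satisfies an equation `P(ξ, y) = 0` where `P` has rational coefficients and total degree at most `e` and `P(ξ, Y)` is
not the zero polynomial. All algebraic numbers of degree at most `e` and all polynomials of degree at most `e` in the `ξ_i` with
rational coefficients have this property. -/
def AlgebraicOver (e : ℕ) {u : ℕ} (ξ : Fin u → ℂ) (y : ℂ) : Prop :=
  ∃ P : MvPolynomial (Option (Fin u)) ℚ, P.totalDegree ≤ e ∧ MvPolynomial.aeval (fun o : Option (Fin u) => o.elim y ξ) P = 0 ∧
    ∃ y' : ℂ, MvPolynomial.aeval (fun o : Option (Fin u) => o.elim y' ξ) P ≠ 0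

/-- numbers which are algebraic over `ℚ(ξ_1, …, ξ_u)` are algebraic of bounded degree -/
theorem algebraicOver_of_isAlgebraic {u : ℕ} {ξ : Fin u → ℂ} {y : ℂ}
    (h : IsAlgebraic (IntermediateField.adjoin ℚ (Set.range ξ)) y) : ∃ e, AlgebraicOver e ξ y :=
  Pool.Agent.H885.algD_of_alg h

/-- The transcendence degree over `ℚ(ξ_1, …, ξ_u)` of the entries of the matrices `P_1, …, P_N` is at least `t`, in degree at
most `δ`: some `t` of the entries (at different places) satisfy no nonzero polynomial relation of degree at most `δ` the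
coefficients of which are algebraic of degree at most `e` over `ξ_1, …, ξ_u`. -/
def TrdegAtLeast {n N : ℕ} (t e δ : ℕ) {u : ℕ} (ξ : Fin u → ℂ) (P : Fin N → Matrix (Fin n) (Fin n) ℂ) : Prop :=
  ∃ σ : Fin t → Fin N × Fin n × Fin n, Function.Injective σ ∧ ∀ S : MvPolynomial (Fin t) ℂ, S.totalDegree ≤ δ →
    (∀ ν, AlgebraicOver e ξ (S.coeff ν)) →
    MvPolynomial.aeval (fun i => P (σ i).1 (σ i).2.1 (σ i).2.2) S = 0 → S = 0

/-- the distance of `b` and `c` is larger than `2^(m+1) H (h + 2)` -/
def Far (m : ℕ) (H : ℝ) (h b c : ℕ) : Prop := 2 ^ (m + 1) * H * ((h : ℝ) + 2) < |(b : ℝ) - c|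

/-- A tuple of `N` fibres: denominators `b_j` and numerators `a_j` of the points, systems `T_j, A_j`, their fundamental matrices
`Z_j` and `W_j = Z_j⁻¹`, the period matrices `C_j` of the central fibres, `ℓ` further numbers `γ`, and a space `𝔤` of tuples of
matrices, for instance the Lie algebra of the differential Galois group of the restrictions of the systems to the lines
through `0` and the points. -/
structure Fibres (m n N ℓ : ℕ) where
  /-- the denominators of the points -/
  b : Fin N → ℕ
  /-- the numerators of the points -/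
  a : Fin N → Fin m → ℤ
  /-- the denominators of the systems -/
  T : Fin N → MvPolynomial (Fin m) ℤ
  /-- the matrices of the systems -/
  A : Fin N → Fin m → Fin n → Fin n → MvPolynomial (Fin m) ℤ
  /-- the fundamental matrices -/
  Z : Fin N → Matrix (Fin n) (Fin n) (MvPowerSeries (Fin m) ℚ)
  /-- their inverses -/
  W : Fin N → Matrix (Fin n) (Fin n) (MvPowerSeries (Fin m) ℚ)
  /-- further constants -/
  γ : Fin ℓ → ℂ
  /-- the periods of the central fibres -/
  C : Fin N → Matrix (Fin n) (Fin n) ℂ
  /-- symmetries -/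
  𝔤 : Submodule ℂ (Fin N → Matrix (Fin n) (Fin n) ℂ)

/-- the period matrices `C_j Z_j(a_j / b_j)` of the fibres -/
noncomputable def Fibres.periods {m n N ℓ : ℕ} (x : Fibres m n N ℓ) : Fin N → Matrix (Fin n) (Fin n) ℂ :=
  fun j => x.C j * value (x.Z j) (x.a j) (x.b j)

/-- The conditions for a tuple of fibres, see the description of the theorem. -/
structure Fibres.Valid {m n N ℓ s : ℕ} (q M e : ℕ) (β : Fin s → ℂ) (H : ℝ) (h w b₀ : ℕ) (x : Fibres m n N ℓ) : Prop where
  /-- the denominators are in the window `[b₀, b₀ + w]` -/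
  window : ∀ j, b₀ ≤ x.b j ∧ x.b j ≤ b₀ + w
  /-- they are equal or far from each other -/
  far : ∀ i j, x.b i = x.b j ∨ Far m H h (x.b i) (x.b j)
  /-- at most `M` of them are different -/
  different : (Finset.univ.image x.b).card ≤ M
  /-- the numerators are bounded by `h` -/
  numerators : ∀ j i, |x.a j i| ≤ h
  /-- the systems have degree at most `q`, height and growth constants at most `H` -/
  family : ∀ j, Family q H (x.T j) (x.A j) (x.Z j) (x.W j)
  /-- the lines are not contained in the polar loci -/
  pole : ∀ j, restrict (x.a j) (toQ (x.T j)) ≠ 0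
  /-- the periods of the central fibres are algebraic over `ℚ(β, γ)` -/
  central : ∀ j i i', AlgebraicOver e (Fin.append β x.γ) (x.C j i i')
  /-- the period matrices are invertible -/
  invertible : ∀ j, IsUnit (x.periods j)
  /-- `𝔤` consists of infinitesimal symmetries, separately for each denominator `c` -/
  symmetries : ∀ X ∈ x.𝔤, ∀ c : ℕ,
    Symmetry (fun j => if x.b j = c then onLine (x.a j) (x.Z j) else 1) (fun j => if x.b j = c then X j else 0)

/-- The defect of the tuple of fibres is at most `ρ`, in bounded degree: the transcendence degree of their periods over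
`ℚ(β, γ)` is at least `dim 𝔤 - ρ`. -/
def Fibres.DefectAtMost {m n N ℓ s : ℕ} (e δ : ℕ) (β : Fin s → ℂ) (x : Fibres m n N ℓ) (ρ : ℕ) : Prop :=
  TrdegAtLeast (Module.finrank ℂ x.𝔤 - ρ) e δ (Fin.append β x.γ) x.periods

/-- the denominators of two tuples of fibres are far from each other -/
def Separated {m n N ℓ : ℕ} (H : ℝ) (h : ℕ) (x y : Fibres m n N ℓ) : Prop := ∀ i j, Far m H h (x.b i) (y.b j)

/-! ## Proofs -/

theorem base_of {m n q : ℕ} {H : ℝ} (hH : 1 ≤ H) {T : MvPolynomial (Fin m) ℤ}
    {A : Fin m → Fin n → Fin n → MvPolynomial (Fin m) ℤ} {Z W : Matrix (Fin n) (Fin n) (MvPowerSeries (Fin m) ℚ)}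
    (h : Family q H T A Z W) :
    Pool.Agent.H885.GBaseU (N := 1) q H T (fun _ => A) (fun _ => Z) (fun _ => W) :=
  ⟨hH, h.degT, h.sizeT, fun _ => h.degA, fun _ => h.sizeA, fun _ => h.ode, fun _ => h.inv, fun _ => h.size, fun k => by
    obtain ⟨d, h1, h2, h3⟩ := h.den k
    exact ⟨d, h1, h2, fun _ => h3⟩⟩

theorem sym_inf {m n N : ℕ} {Z : Fin N → Matrix (Fin n) (Fin n) (MvPowerSeries (Fin m) ℚ)} {a : Fin N → Fin m → ℤ}
    {b : Fin N → ℕ} {β : ℕ} {X : Fin N → Matrix (Fin n) (Fin n) ℂ}
    (h : Symmetry (fun j => if b j = β then onLine (a j) (Z j) else 1) (fun j => if b j = β then X j else 0)) :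
    Pool.Agent.H885.InfT (Pool.Agent.H885.part b (fun j => Pool.Agent.H885.lineM (a j) (Z j)) β)
      (fun j => if b j = β then X j else 0) := by
  have h1 : Pool.Agent.H885.cent (Pool.Agent.H885.part b (fun j => Pool.Agent.H885.lineM (a j) (Z j)) β) =
      fun σ : Fin N × Fin n × Fin n => (if b σ.1 = β then onLine (a σ.1) (Z σ.1) else 1) σ.2.1 σ.2.2 := by
    funext σ
    unfold Pool.Agent.H885.cent Pool.Agent.H885.part
    by_cases hb : b σ.1 = β
    · rw [if_pos hb, if_pos hb]
      rfl
    · rw [if_neg hb, if_neg hb, Matrix.one_apply, Matrix.one_apply]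
      split_ifs
      · exact map_one _
      · exact map_zero _
  intro R hR
  rw [h1] at hR ⊢
  refine Eq.trans ?_ (h R hR)
  refine Finset.sum_congr rfl fun σ _ => ?_
  rw [Matrix.mul_apply]
  rfl

theorem far_symm {m : ℕ} {H : ℝ} {h b c : ℕ} (hbc : Far m H h b c) : Far m H h c b := by
  unfold Far at hbc ⊢
  rw [abs_sub_comm]
  exact hbc

/-- a bounded number of separated tuples -/
theorem core (m n N q s ℓ e δ L : ℕ) (d : Fin L → ℕ) : ∃ E : ℕ, ∀ (M : ℕ) (β : Fin s → ℂ) (H : ℝ) (h w b₀ : ℕ), 1 ≤ H →
    (2 * H * ((h : ℝ) + w + 2)) ^ E ≤ (b₀ : ℝ) → ∀ x : Fin L → Fibres m n N ℓ, (∀ l, (x l).Valid q M e β H h w b₀) →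
    (∀ l l', l ≠ l' → Separated H h (x l) (x l')) → (∀ l, d l = Module.finrank ℂ (x l).𝔤) →
    ∃ ρ : Fin L → ℕ, ∑ l, ρ l ≤ s ∧ ∀ l, (x l).DefectAtMost e δ β (ρ l + ℓ) := by
  classical
  obtain ⟨q', E₀, hbase⟩ := Pool.Agent.H885.base_sysU m n 1 q
  obtain ⟨E, hE⟩ := Pool.Agent.H885.uniformS n N q' s ℓ e δ L d
  obtain ⟨e₁, he₁⟩ := Pool.Agent.H885.pow_absorb (c := (2 : ℝ) * (1 + 2 ^ m)) (by
    have : (1 : ℝ) ≤ 2 ^ m := one_le_pow₀ (by norm_num)
    linarith)
  refine ⟨(e₁ + E₀ + 1) * E, fun M β H h w b₀ hH hbig xs hxs hsep hd => ?_⟩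
  set x : ℝ := 2 * H * ((h : ℝ) + w + 2) with hx
  have hh0 : (0 : ℝ) ≤ h := by positivity
  have hw0 : (0 : ℝ) ≤ w := by positivity
  have hx1 : (h : ℝ) + w + 2 ≤ x := by
    rw [hx]
    nlinarith
  have hx2 : 2 ≤ x := by linarith
  have hx3 : H * ((h : ℝ) + 2) ≤ x := by
    rw [hx]
    nlinarith
  have hx4 : 2 * H * ((h : ℝ) + 2) ≤ x := by
    rw [hx]
    nlinarith
  have hbig' : (2 * (2 * H * ((h : ℝ) + 2)) ^ E₀ * ((w : ℝ) + 2 ^ m * (H * ((h : ℝ) + 2)) + 2)) ^ E ≤ (b₀ : ℝ) := by
    refine le_trans ?_ hbig
    rw [pow_mul]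
    refine pow_le_pow_left₀ (by positivity) ?_ E
    have h1 : (2 * H * ((h : ℝ) + 2)) ^ E₀ ≤ x ^ E₀ := pow_le_pow_left₀ (by positivity) hx4 _
    have h2 : (w : ℝ) + 2 ^ m * (H * ((h : ℝ) + 2)) + 2 ≤ (1 + 2 ^ m) * x := by
      have h3 : (2 : ℝ) ^ m * (H * ((h : ℝ) + 2)) ≤ 2 ^ m * x := mul_le_mul_of_nonneg_left hx3 (by positivity)
      linarith
    calc 2 * (2 * H * ((h : ℝ) + 2)) ^ E₀ * ((w : ℝ) + 2 ^ m * (H * ((h : ℝ) + 2)) + 2) ≤
        2 * x ^ E₀ * ((1 + 2 ^ m) * x) := by
          refine mul_le_mul (by linarith) h2 (by positivity) (by positivity)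
      _ = (2 * (1 + 2 ^ m)) * (x ^ E₀ * x) := by ring
      _ ≤ x ^ e₁ * (x ^ E₀ * x) := mul_le_mul_of_nonneg_right (he₁ x hx2) (by positivity)
      _ = x ^ (e₁ + E₀ + 1) := by ring
  have hFar : ∀ b c : ℕ, Far m H h b c → 2 * (2 ^ m * (H * ((h : ℝ) + 2))) < |(b : ℝ) - c| := by
    intro b c hbc
    refine lt_of_eq_of_lt ?_ hbc
    ring
  have h1 : ∀ l j, ∃ (T' : Polynomial ℤ) (B' : Fin n → Fin n → Polynomial ℤ), T' ≠ 0 ∧
      Pool.Agent.H885.Sys (N := 1) q' ((2 * H * ((h : ℝ) + 2)) ^ E₀) T' (fun _ => B')
        (fun _ => Pool.Agent.H885.lineM ((xs l).a j) ((xs l).Z j)) (fun _ => Pool.Agent.H885.lineM ((xs l).a j) ((xs l).W j)) := by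
    intro l j
    obtain ⟨T', B', hT', hS'⟩ := hbase H ((xs l).T j) (fun _ => (xs l).A j) (fun _ => (xs l).Z j) (fun _ => (xs l).W j)
      (base_of hH ((hxs l).family j)) h (fun _ => (xs l).a j) (fun _ => (hxs l).numerators j) (fun _ => (hxs l).pole j)
    have h2 : B' = fun _ => B' 0 := funext fun i => by rw [Subsingleton.elim i 0]
    rw [h2] at hS'
    exact ⟨T', B' 0, hT', hS'⟩
  choose T' B' hT' hS' using h1
  obtain ⟨ρ, hρ, hρ'⟩ := hE ⟨β, fun l => (xs l).γ, fun l => (xs l).C, (2 * H * ((h : ℝ) + 2)) ^ E₀, T', B',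
      fun l j => Pool.Agent.H885.lineM ((xs l).a j) ((xs l).Z j), fun l j => Pool.Agent.H885.lineM ((xs l).a j) ((xs l).W j),
      2 ^ m * (H * ((h : ℝ) + 2)), w, b₀, fun l => (xs l).b, fun l => (xs l).𝔤⟩
    ⟨fun l => (hxs l).central, one_le_pow₀ (by nlinarith), hS', hT', by positivity, fun l j a' b' =>
        Pool.Agent.Y120.GH.cx_mem (by positivity)
          (Pool.Agent.H885.line_size hH (((hxs l).family j).size a' b') ((hxs l).numerators j)),
      fun l j => (hxs l).window j, fun l j l' j' hne => by
        by_cases hll : l = l'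
        · subst hll
          rcases (hxs l).far j j' with h2 | h2
          · exact absurd ⟨rfl, h2⟩ hne
          · exact hFar _ _ h2
        · exact hFar _ _ (hsep l l' hll j j'), hbig', fun l X hX c => sym_inf ((hxs l).symmetries X hX c),
      fun l => (hd l).le, fun l j => (hxs l).invertible j⟩
  refine ⟨ρ, hρ, fun l => ?_⟩
  unfold Fibres.DefectAtMost
  rw [← hd l]
  exact hρ' l

/-- **The theorem.** Part 1: the sum of the defects of separated tuples of fibres is at most `s` (up to `ℓ` for each tuple).
Part 2: the number of exceptional denominators with defects larger than `r`. -/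
theorem result (m n N M q s ℓ e δ : ℕ) :
    ∃ E : ℕ, ∀ (β : Fin s → ℂ) (H : ℝ) (h w b₀ : ℕ), 1 ≤ H → (2 * H * ((h : ℝ) + w + 2)) ^ E ≤ (b₀ : ℝ) →
    (∀ (L : ℕ) (x : Fin L → Fibres m n N ℓ), (∀ l, (x l).Valid q M e β H h w b₀) →
      (∀ l l', l ≠ l' → Separated H h (x l) (x l')) →
      ∃ ρ : Fin L → ℕ, ∑ l, ρ l ≤ s ∧ ∀ l, (x l).DefectAtMost e δ β (ρ l + ℓ)) ∧
    ∀ r : ℕ, ℓ ≤ r → ∃ F : Finset ℕ, F.card ≤ M * (s / (r + 1 - ℓ)) ∧
      ∀ x : Fibres m n N ℓ, x.Valid q M e β H h w b₀ → (∀ j, ∀ c ∈ F, Far m H h (x.b j) c) →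
      x.DefectAtMost e δ β r := by
  classical
  choose E hE using core m n N q s ℓ e δ
  set D : ℕ := Module.finrank ℂ (Fin N → Matrix (Fin n) (Fin n) ℂ) with hD
  set E' : ℕ := ∑ L ∈ Finset.range (s + 2), ∑ d : Fin L → Fin (D + 1), E L fun l => (d l : ℕ) with hE'
  have hle : ∀ L, L ≤ s + 1 → ∀ d : Fin L → ℕ, (∀ l, d l ≤ D) → E L d ≤ E' := by
    intro L hL d hd
    have h1 := Finset.single_le_sum (f := fun L => ∑ d : Fin L → Fin (D + 1), E L fun l => (d l : ℕ))
      (fun _ _ => Nat.zero_le _) (Finset.mem_range.2 (by omega : L < s + 2))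
    have h2 := Finset.single_le_sum (f := fun d : Fin L → Fin (D + 1) => E L fun l => (d l : ℕ))
      (fun _ _ => Nat.zero_le _) (Finset.mem_univ fun l => (⟨d l, Nat.lt_succ_of_le (hd l)⟩ : Fin (D + 1)))
    exact h2.trans h1
  refine ⟨E', fun β H h w b₀ hH hbig => ?_⟩
  have hx1 : (1 : ℝ) ≤ 2 * H * ((h : ℝ) + w + 2) := by
    have h1 : (0 : ℝ) ≤ h := by positivity
    have h2 : (0 : ℝ) ≤ w := by positivity
    nlinarith
  -- at most `s + 1` tuples
  have hcore : ∀ (L : ℕ) (x : Fin L → Fibres m n N ℓ), L ≤ s + 1 → (∀ l, (x l).Valid q M e β H h w b₀) →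
      (∀ l l', l ≠ l' → Separated H h (x l) (x l')) →
      ∃ ρ : Fin L → ℕ, ∑ l, ρ l ≤ s ∧ ∀ l, (x l).DefectAtMost e δ β (ρ l + ℓ) := by
    intro L x hL hx hsep
    refine hE L (fun l => Module.finrank ℂ (x l).𝔤) M β H h w b₀ hH ?_ x hx hsep fun l => rfl
    exact (pow_le_pow_right₀ hx1 (hle L hL _ fun l => Submodule.finrank_le _)).trans hbig
  -- the defect
  have hex : ∀ x : Fibres m n N ℓ, ∃ ρ, x.DefectAtMost e δ β (ρ + ℓ) := by
    intro x
    refine ⟨Module.finrank ℂ x.𝔤, ?_⟩
    unfold Fibres.DefectAtMost
    have h1 : Module.finrank ℂ x.𝔤 - (Module.finrank ℂ x.𝔤 + ℓ) = 0 := by omega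
    rw [h1]
    exact Pool.Agent.H885.trD_zero _ _
  set df : Fibres m n N ℓ → ℕ := fun x => Nat.find (hex x) with hdf
  have hdf1 : ∀ x : Fibres m n N ℓ, x.DefectAtMost e δ β (df x + ℓ) := fun x => Nat.find_spec (hex x)
  have hdf2 : ∀ (x : Fibres m n N ℓ) (ρ : ℕ), x.DefectAtMost e δ β (ρ + ℓ) → df x ≤ ρ := fun x ρ hρ => Nat.find_min' (hex x) hρ
  have hmain : ∀ (L : ℕ) (x : Fin L → Fibres m n N ℓ), (∀ l, (x l).Valid q M e β H h w b₀) →
      (∀ l l', l ≠ l' → Separated H h (x l) (x l')) → ∑ l, df (x l) ≤ s := by
    intro L x hx hsep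
    -- subsets
    have hsub : ∀ Λ : Finset (Fin L), Λ.card ≤ s + 1 → ∑ l ∈ Λ, df (x l) ≤ s := by
      intro Λ hΛ
      set f := Λ.orderEmbOfFin rfl with hf
      obtain ⟨ρ, hρ, hρ'⟩ := hcore Λ.card (fun i => x (f i)) hΛ (fun i => hx _) fun i i' hii =>
        hsep _ _ fun h1 => hii (f.injective h1)
      have h1 : ∑ i : Fin Λ.card, df (x (f i)) = ∑ l ∈ Λ, df (x l) := by
        have h2 : Λ = Finset.univ.map f.toEmbedding := by
          rw [hf, ← Finset.coe_inj]
          simp
        conv_rhs => rw [h2, Finset.sum_map]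
      rw [← h1]
      exact (Finset.sum_le_sum fun i _ => hdf2 _ _ (hρ' i)).trans hρ
    set Λ := Finset.univ.filter fun l => df (x l) ≠ 0 with hΛ
    have h1 : ∑ l, df (x l) = ∑ l ∈ Λ, df (x l) := by
      rw [hΛ, Finset.sum_filter_ne_zero]
    rcases le_or_gt Λ.card (s + 1) with h2 | h2
    · rw [h1]
      exact hsub Λ h2
    · obtain ⟨Λ', hΛ', hcard⟩ := Finset.exists_subset_card_eq (s := Λ) h2.le
      have h3 := hsub Λ' hcard.le
      have h4 : Λ'.card ≤ ∑ l ∈ Λ', df (x l) := by
        rw [Finset.card_eq_sum_ones]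
        refine Finset.sum_le_sum fun l hl => ?_
        have := (Finset.mem_filter.1 (hΛ' hl)).2
        omega
      omega
  refine ⟨fun L x hx hsep => ⟨fun l => df (x l), hmain L x hx hsep, fun l => hdf1 _⟩, fun r hr => ?_⟩
  -- the exceptional denominators
  set P : ℕ → Prop := fun p => ∃ x : Fin p → Fibres m n N ℓ, (∀ l, (x l).Valid q M e β H h w b₀) ∧
    (∀ l l', l ≠ l' → Separated H h (x l) (x l')) ∧ ∀ l, ¬ (x l).DefectAtMost e δ β r with hP
  have hPle : ∀ p, P p → p ≤ s / (r + 1 - ℓ) := by
    rintro p ⟨x, hx, hsep, hbad⟩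
    rw [Nat.le_div_iff_mul_le (by omega)]
    have h1 := hmain p x hx hsep
    have h2 : ∀ l, r + 1 - ℓ ≤ df (x l) := by
      intro l
      by_contra hcon
      apply hbad l
      refine Pool.Agent.H885.TrD.mono (t := Module.finrank ℂ (x l).𝔤 - (df (x l) + ℓ)) ?_ (hdf1 (x l))
      omega
    have h3 : ∑ _l : Fin p, (r + 1 - ℓ) ≤ ∑ l, df (x l) := Finset.sum_le_sum fun l _ => h2 l
    rw [Finset.sum_const, Finset.card_univ, Fintype.card_fin, smul_eq_mul] at h3
    exact h3.trans h1
  have hP0 : P 0 := ⟨fun l => l.elim0, fun l => l.elim0, fun l => l.elim0, fun l => l.elim0⟩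
  obtain ⟨p, hPp, hPp1⟩ : ∃ p, P p ∧ ¬ P (p + 1) := by
    by_contra hcon
    push Not at hcon
    have h1 : ∀ p, P p := by
      intro p
      induction p with
      | zero => exact hP0
      | succ p ih => exact hcon p ih
    have := hPle _ (h1 (s / (r + 1 - ℓ) + 1))
    omega
  have hple := hPle p hPp
  obtain ⟨x, hx, hsep, hbad⟩ := hPp
  refine ⟨Finset.univ.biUnion fun l => Finset.univ.image (x l).b, ?_, fun y hy hyF => ?_⟩
  · refine Finset.card_biUnion_le.trans ?_
    refine (Finset.sum_le_card_nsmul _ _ M fun l _ => (hx l).different).trans ?_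
    rw [Finset.card_univ, Fintype.card_fin, smul_eq_mul, mul_comm]
    exact Nat.mul_le_mul_left _ hple
  · by_contra hybad
    apply hPp1
    refine ⟨Fin.cons y x, fun l => ?_, fun l l' hll i j => ?_, fun l => ?_⟩
    · refine Fin.cases ?_ (fun l => ?_) l
      · exact hy
      · exact hx l
    · have hin : ∀ l j, (x l).b j ∈ Finset.univ.biUnion fun l => Finset.univ.image (x l).b := fun l j =>
        Finset.mem_biUnion.2 ⟨l, Finset.mem_univ _, Finset.mem_image_of_mem _ (Finset.mem_univ _)⟩
      rcases Fin.eq_zero_or_eq_succ l with rfl | ⟨l, rfl⟩ <;> rcases Fin.eq_zero_or_eq_succ l' with rfl | ⟨l', rfl⟩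
      · exact absurd rfl hll
      · rw [Fin.cons_zero, Fin.cons_succ]
        exact hyF i _ (hin l' j)
      · rw [Fin.cons_zero, Fin.cons_succ]
        exact far_symm (hyF j _ (hin l i))
      · rw [Fin.cons_succ, Fin.cons_succ]
        exact hsep l l' (fun h1 => hll (by rw [h1])) i j
    · refine Fin.cases ?_ (fun l => ?_) l
      · exact hybad
      · exact hbad l

end Pool.Agent.Results.MP_caab05_ag.SumOfDefects
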