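import Pool.Agent.H885.BaseU
import Pool.Agent.H885.Mono
import Pool.Agent.H885.FewR
import Pool.Agent.H885.Rat

/-!
# Period relations of bounded degree: all fibres of all families near arbitrary fibres

For `j = 1, …, N` let `X_j → B_j` be a family of varieties over `ℚ`, `B_j` open in the affine space of **any dimension `m`**,
`0 ∈ B_j(ℚ)`, and let `P_j(x) = C_j Z_j(x)` be the matrix of the periods of a cohomology group of rank `n` of the fibres near
`0`; `Z_j` is a fundamental matrix of the Gauss-Manin connection (a matrix of G-functions over `ℚ` in the `m` variables `x`)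
and `C_j` is the matrix of the periods of the central fibre. The relations between the periods of the fibres which come from
the families are those which hold on the fibre over `x` of the Zariski closure of the graph of `P`; this fibre is an orbit of the
Zariski closure `G` of the monodromy group (the differential Galois group), and the conjecture says that outside of the Hodge
locus there are no other relations. We prove this, in bounded degree, for all families and almost all points near `0` **at
once**.

**Theorem.** Fix `m, n, N, M, q, s, e, δ`. There is `E` with the following property for all complex numbers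
`β_1, …, β_s`, all `H, h, w` and all `b₀ ≥ (2 H (h + w + 2))^E`. We consider (`Fibres.Valid`)

* **all** tuples `b_1, …, b_N` of denominators in the window `[b₀, b₀ + w]`, at most `M` of them different, such that the
  distances of different `b_j` are larger than `2^(m+1) H (h + 2)`,
* **all** families over bases of dimension `m`, that is, all `n × n` systems `T ∂Z_j / ∂x_i = Z_j A_{j i}` of degree at
  most `q`, for which the height of the system and the growth constants of the coefficients and of the denominators of
  `Z_j` and `Z_j⁻¹` are at most `H`,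
* **all** numerators `a_j ∈ ℤ^m` with `|a_j| ≤ h`; if `0` is a pole of the system then the line `ℚ a_j` must not be contained
  in the polar locus `T = 0`,
* **all** central fibres with periods (entries of the `C_j`) algebraic of degree at most `e` over `ℚ(β_1, …, β_s)`. The
  matrices `C_j` need not be invertible, so one may also take the periods over a part of the cycles.

The tuple of fibres over the points `a_j / b_j` is called generic (`Fibres.Generic`) if **every** polynomial `S` in the entries
of the `N` period matrices of degree at most `δ` the coefficients of which are algebraic of degree at most `e` over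
`ℚ(β_1, …, β_s)` (for instance, numbers in any number field of degree at most `e`, of arbitrary height), and which
vanishes at the periods `C_j Z_j(a_j / b_j)`, vanishes on the whole orbit `(C_j g_j Z_j(a_j / b_j))_j`, `g ∈ G°`. Here `G°` is the
group generated by the exponentials of **all** infinitesimal symmetries of the system formed by the restrictions of the
`Z_j` to the lines `ℚ a_j` (for points with different denominators the symmetries are independent of each other). This is
the identity component of the differential Galois group. Then: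

1. In every family of tuples of fibres as above, of any families of varieties, the denominators of which are at distance
   larger than `2^(m+1) H (h + 2)` for different tuples, at most `s` of the tuples are not generic.
2. There is a set `F` of at most `M s` denominators such that **all** tuples of fibres as above the denominators of
   which are at distance larger than `2^(m+1) H (h + 2)` from the elements of `F` are generic. The set `F` depends on `β_1, …, β_s`
   and on the window only, not on the families, the central fibres, the points, the number fields or the relations.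

If the periods of the central fibres are algebraic (`s = 0`) there are no exceptions. The number `s` in part 1 is optimal: if
the `β_i` are algebraically independent values of the entries of `Z` at one point (of `s` points) then there are additional
relations there.

What is known. The library has this for **one fixed one-parameter** family: `AllFamiliesWindows` (this problem; the points are
`1 / m`, at most `s` or `s + 1` exceptional `m` in each window), and for almost all algebraic points of a fixed family there are
results with bounded **height** of the relations (`EveryFamily`, `ConnectedFamilies`, `NearEveryPoint`). There the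
constants depend on the family. New here are the uniformity (all families of bounded degree over bases of any dimension, all
rational points `a / b` with `|a|^E ≤ b`, all central fibres with periods in a given field, with an exceptional set
which does not depend on them), simultaneous relations between the fibres of different families, and part 1.
`SumOfDefects` (MP_caab05_ag) bounds the transcendence degree in the same situation; it says nothing about which relations hold.

Bounded degree is essential for the method: nothing is said about relations of degree larger than `δ`. That the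
period matrices of families have the form `C Z(x)` with `Z` as above is from the literature and not part of the Lean theorem.

Proof (`Pool/Agent/H885`). An ultraproduct of a sequence of counterexamples has, for each of the `s + 1` separated tuples
and each symmetry `X`, a derivation of `*ℂ` over `*ℚ` which moves the values of the functions `Z_j` at this tuple by `X` and
kills the values at all other tuples (this uses a linear independence theorem for values of G-functions without
independence conditions and with explicit constants, and the analytic continuation of the functions which belong to one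
denominator around their own singularities). Since there are only `s` numbers `β_i`, there is one of the tuples for which all
symmetries are realised by derivations which kill the `β_i` (`pigeonS`). The space of the symmetries is spanned by
rational matrices (`symS_rat`). So the set of the relations which vanish at the periods and have coefficients in the field of
constants of these derivations is stable under the vector fields of the rational symmetries (`uniformO`); since the
relations have bounded degree finitely many steps suffice (`exists_stable`), and this goes back from the ultraproduct to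
the complex numbers. Finally a space of polynomials which is stable under the vector fields and vanishes at a
point vanishes on its orbit (`orbit_zero`).
-/

set_option autoImplicit false

open PowerSeries Filter
open scoped Matrix

namespace Pool.Agent.Results.MP_290158_ag.UniformRelations

section several
variable {n m N : ℕ}

/-- an integer polynomial in `m` variables as a power series with rational coefficients -/
noncomputable def toQ (P : MvPolynomial (Fin m) ℤ) : MvPowerSeries (Fin m) ℚ :=
  ((P.map (Int.castRingHom ℚ) : MvPolynomial (Fin m) ℚ) : MvPowerSeries (Fin m) ℚ)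

/-- the partial derivative `∂f / ∂x_i` -/
noncomputable def partialD (i : Fin m) (f : MvPowerSeries (Fin m) ℚ) : MvPowerSeries (Fin m) ℚ :=
  fun ν => ((ν i : ℚ) + 1) * MvPowerSeries.coeff (ν + Finsupp.single i 1) f

/-- `Z` is an invertible `n × n` matrix of G-functions in `m` variables with rational coefficients, `W = Z⁻¹`, which
solves the system `T ∂Z / ∂x_i = Z A_i`, `i = 1, …, m`. The degrees of `T` and `A_i` are at most `q`; the
absolute values of their coefficients and the growth of the coefficients of `Z` and of the denominators of the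
coefficients of `Z` and `W` are bounded by `H`. -/
structure Family (q : ℕ) (H : ℝ) (T : MvPolynomial (Fin m) ℤ) (A : Fin m → Fin n → Fin n → MvPolynomial (Fin m) ℤ)
    (Z W : Matrix (Fin n) (Fin n) (MvPowerSeries (Fin m) ℚ)) : Prop where
  /-- the degree of `T` -/
  degT : T.totalDegree ≤ q
  /-- the height of `T` -/
  sizeT : ∀ ν, |((T.coeff ν : ℤ) : ℝ)| ≤ H
  /-- the degrees of the `A_i` -/
  degA : ∀ i a b, (A i a b).totalDegree ≤ q
  /-- the heights of the `A_i` -/
  sizeA : ∀ i a b ν, |(((A i a b).coeff ν : ℤ) : ℝ)| ≤ H
  /-- the differential equations -/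
  ode : ∀ i a b, toQ T * partialD i (Z a b) = ∑ l, Z a l * toQ (A i l b)
  /-- `W` is the inverse of `Z` -/
  inv : W * Z = 1
  /-- the growth of the coefficients -/
  size : ∀ a b (ν : Fin m →₀ ℕ), |((MvPowerSeries.coeff ν (Z a b) : ℚ) : ℝ)| ≤ H ^ (∑ i, ν i + 1)
  /-- the growth of the common denominators of the coefficients -/
  den : ∀ k : ℕ, ∃ d : ℕ, 0 < d ∧ (d : ℝ) ≤ H ^ (k + 1) ∧ ∀ a b (ν : Fin m →₀ ℕ), ∑ i, ν i ≤ k →
    (∃ z : ℤ, (d : ℚ) * MvPowerSeries.coeff ν (Z a b) = z) ∧ ∃ z : ℤ, (d : ℚ) * MvPowerSeries.coeff ν (W a b) = z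

/-- the power series `f(x a)` in the variable `x`, the restriction of `f` to the line through `0` with direction `a` -/
noncomputable def restrict (a : Fin m → ℤ) (f : MvPowerSeries (Fin m) ℚ) : PowerSeries ℚ :=
  PowerSeries.mk fun k => ∑ ν ∈ (Finset.univ : Finset (Fin m)).finsuppAntidiag k,
    MvPowerSeries.coeff ν f * ∏ i, (a i : ℚ) ^ ν i

/-- the value `Z(a / b)`, that is, the value of the restriction of `Z` to the line at `x = 1 / b` -/
noncomputable def value (Z : Matrix (Fin n) (Fin n) (MvPowerSeries (Fin m) ℚ)) (a : Fin m → ℤ) (b : ℕ) :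
    Matrix (Fin n) (Fin n) ℂ :=
  Matrix.of fun i j => ((∑' k : ℕ, ((coeff k (restrict a (Z i j)) : ℚ) : ℝ) * (1 / (b : ℝ)) ^ k : ℝ) : ℂ)

/-- the restriction of `Z` to the line with direction `a`, over `ℂ` -/
noncomputable def onLine (a : Fin m → ℤ) (Z : Matrix (Fin n) (Fin n) (MvPowerSeries (Fin m) ℚ)) :
    Matrix (Fin n) (Fin n) (PowerSeries ℂ) :=
  Z.map fun f => PowerSeries.map (algebraMap ℚ ℂ) (restrict a f)

/-- `(X_1, …, X_N)` is an infinitesimal symmetry of the matrices `Y_1, …, Y_N` of power series: for all polynomial relations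
`R(x, Y_1(x), …, Y_N(x)) = 0` over `ℂ[x]` the derivative of `R(x, (1 + ε X_1) Y_1(x), …, (1 + ε X_N) Y_N(x))` at `ε = 0` is
zero. -/
def Symmetry (Y : Fin N → Matrix (Fin n) (Fin n) (PowerSeries ℂ)) (X : Fin N → Matrix (Fin n) (Fin n) ℂ) : Prop :=
  ∀ R : MvPolynomial (Fin N × Fin n × Fin n) (Polynomial ℂ),
    MvPolynomial.aeval (fun σ => Y σ.1 σ.2.1 σ.2.2) R = 0 →
    ∑ σ, MvPolynomial.aeval (fun σ => Y σ.1 σ.2.1 σ.2.2) (MvPolynomial.pderiv σ R) *
      ((X σ.1).map (PowerSeries.C (R := ℂ)) * Y σ.1) σ.2.1 σ.2.2 = 0

end several

/-- `y` satisfies an equation `P(ξ, y) = 0` where `P` has rational coefficients and total degree at most `e` and `P(ξ, Y)` is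
not the zero polynomial. All algebraic numbers of degree at most `e` and all polynomials of degree at most `e` in the `ξ_i` with
rational coefficients have this property. -/
def AlgebraicOver (e : ℕ) {u : ℕ} (ξ : Fin u → ℂ) (y : ℂ) : Prop :=
  ∃ P : MvPolynomial (Option (Fin u)) ℚ, P.totalDegree ≤ e ∧ MvPolynomial.aeval (fun o : Option (Fin u) => o.elim y ξ) P = 0 ∧
    ∃ y' : ℂ, MvPolynomial.aeval (fun o : Option (Fin u) => o.elim y' ξ) P ≠ 0

/-- numbers which are algebraic over `ℚ(ξ_1, …, ξ_u)` are algebraic of bounded degree -/
theorem algebraicOver_of_isAlgebraic {u : ℕ} {ξ : Fin u → ℂ} {y : ℂ}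
    (h : IsAlgebraic (IntermediateField.adjoin ℚ (Set.range ξ)) y) : ∃ e, AlgebraicOver e ξ y :=
  Pool.Agent.H885.algD_of_alg h

/-- the distance of `b` and `c` is larger than `2^(m+1) H (h + 2)` -/
def Far (m : ℕ) (H : ℝ) (h b c : ℕ) : Prop := 2 ^ (m + 1) * H * ((h : ℝ) + 2) < |(b : ℝ) - c|

/-- A tuple of `N` fibres: denominators `b_j` and numerators `a_j` of the points, systems `T_j, A_j`, their fundamental matrices
`Z_j` and `W_j = Z_j⁻¹`, and the period matrices `C_j` of the central fibres. -/
structure Fibres (m n N : ℕ) where
  /-- the denominators of the points -/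
  b : Fin N → ℕ
  /-- the numerators of the points -/
  a : Fin N → Fin m → ℤ
  /-- the denominators of the systems -/
  T : Fin N → MvPolynomial (Fin m) ℤ
  /-- the matrices of the systems -/
  A : Fin N → Fin m → Fin n → Fin n → MvPolynomial (Fin m) ℤ
  /-- the fundamental matrices -/
  Z : Fin N → Matrix (Fin n) (Fin n) (MvPowerSeries (Fin m) ℚ)
  /-- their inverses -/
  W : Fin N → Matrix (Fin n) (Fin n) (MvPowerSeries (Fin m) ℚ)
  /-- the periods of the central fibres -/
  C : Fin N → Matrix (Fin n) (Fin n) ℂ

/-- the matrices `C_j g_j Z_j(a_j / b_j)`; for `g = 1` these are the period matrices of the fibres -/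
noncomputable def Fibres.translate {m n N : ℕ} (x : Fibres m n N) (g : Fin N → Matrix (Fin n) (Fin n) ℂ) :
    Fin N → Matrix (Fin n) (Fin n) ℂ :=
  fun j => x.C j * (g j * value (x.Z j) (x.a j) (x.b j))

/-- the period matrices `C_j Z_j(a_j / b_j)` of the fibres -/
noncomputable def Fibres.periods {m n N : ℕ} (x : Fibres m n N) : Fin N → Matrix (Fin n) (Fin n) ℂ := x.translate 1

/-- `(X_1, …, X_N)` is an infinitesimal symmetry of the restrictions of the `Z_j` to the lines `ℚ a_j`, separately for each
denominator `c` -/
def Fibres.IsSymmetry {m n N : ℕ} (x : Fibres m n N) (X : Fin N → Matrix (Fin n) (Fin n) ℂ) : Prop := ∀ c : ℕ,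
  Symmetry (fun j => if x.b j = c then onLine (x.a j) (x.Z j) else 1) (fun j => if x.b j = c then X j else 0)

/-- the group generated by the exponentials of the infinitesimal symmetries: the identity component of the differential
Galois group (it contains the inverses, since `-X` is a symmetry if `X` is one) -/
noncomputable def Fibres.group {m n N : ℕ} (x : Fibres m n N) : Submonoid (Fin N → Matrix (Fin n) (Fin n) ℂ) :=
  Submonoid.closure {g | ∃ X, x.IsSymmetry X ∧ g = fun j => NormedSpace.exp (X j)}

/-- The conditions for a tuple of fibres, see the description of the theorem. -/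
structure Fibres.Valid {m n N s : ℕ} (q M e : ℕ) (β : Fin s → ℂ) (H : ℝ) (h w b₀ : ℕ) (x : Fibres m n N) : Prop where
  /-- the denominators are in the window `[b₀, b₀ + w]` -/
  window : ∀ j, b₀ ≤ x.b j ∧ x.b j ≤ b₀ + w
  /-- they are equal or far from each other -/
  far : ∀ i j, x.b i = x.b j ∨ Far m H h (x.b i) (x.b j)
  /-- at most `M` of them are different -/
  different : (Finset.univ.image x.b).card ≤ M
  /-- the numerators are bounded by `h` -/
  numerators : ∀ j i, |x.a j i| ≤ h
  /-- the systems have degree at most `q`, height and growth constants at most `H` -/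
  family : ∀ j, Family q H (x.T j) (x.A j) (x.Z j) (x.W j)
  /-- the lines are not contained in the polar loci -/
  pole : ∀ j, restrict (x.a j) (toQ (x.T j)) ≠ 0
  /-- the periods of the central fibres are algebraic over `ℚ(β)` -/
  central : ∀ j i i', AlgebraicOver e β (x.C j i i')

/-- The tuple of fibres is generic, in bounded degree: all polynomials of degree at most `δ` with coefficients which are
algebraic of degree at most `e` over `ℚ(β)` and which vanish at the periods vanish on the orbit of the group. -/
def Fibres.Generic {m n N s : ℕ} (e δ : ℕ) (β : Fin s → ℂ) (x : Fibres m n N) : Prop :=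
  ∀ S : MvPolynomial (Fin N × Fin n × Fin n) ℂ, S.totalDegree ≤ δ → (∀ ν, AlgebraicOver e β (S.coeff ν)) →
    MvPolynomial.eval (fun σ => x.periods σ.1 σ.2.1 σ.2.2) S = 0 →
    ∀ g ∈ x.group, MvPolynomial.eval (fun σ => x.translate g σ.1 σ.2.1 σ.2.2) S = 0

/-- the denominators of two tuples of fibres are far from each other -/
def Separated {m n N : ℕ} (H : ℝ) (h : ℕ) (x y : Fibres m n N) : Prop := ∀ i j, Far m H h (x.b i) (y.b j)

/-! ## Proofs -/

theorem base_of {m n q : ℕ} {H : ℝ} (hH : 1 ≤ H) {T : MvPolynomial (Fin m) ℤ}
    {A : Fin m → Fin n → Fin n → MvPolynomial (Fin m) ℤ} {Z W : Matrix (Fin n) (Fin n) (MvPowerSeries (Fin m) ℚ)}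
    (h : Family q H T A Z W) :
    Pool.Agent.H885.GBaseU (N := 1) q H T (fun _ => A) (fun _ => Z) (fun _ => W) :=
  ⟨hH, h.degT, h.sizeT, fun _ => h.degA, fun _ => h.sizeA, fun _ => h.ode, fun _ => h.inv, fun _ => h.size, fun k => by
    obtain ⟨d, h1, h2, h3⟩ := h.den k
    exact ⟨d, h1, h2, fun _ => h3⟩⟩

theorem sym_inf {m n N : ℕ} {Z : Fin N → Matrix (Fin n) (Fin n) (MvPowerSeries (Fin m) ℚ)} {a : Fin N → Fin m → ℤ}
    {b : Fin N → ℕ} {β : ℕ} {X : Fin N → Matrix (Fin n) (Fin n) ℂ}
    (h : Symmetry (fun j => if b j = β then onLine (a j) (Z j) else 1) (fun j => if b j = β then X j else 0)) :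
    Pool.Agent.H885.InfT (Pool.Agent.H885.part b (fun j => Pool.Agent.H885.lineM (a j) (Z j)) β)
      (fun j => if b j = β then X j else 0) := by
  have h1 : Pool.Agent.H885.cent (Pool.Agent.H885.part b (fun j => Pool.Agent.H885.lineM (a j) (Z j)) β) =
      fun σ : Fin N × Fin n × Fin n => (if b σ.1 = β then onLine (a σ.1) (Z σ.1) else 1) σ.2.1 σ.2.2 := by
    funext σ
    unfold Pool.Agent.H885.cent Pool.Agent.H885.part
    by_cases hb : b σ.1 = β
    · rw [if_pos hb, if_pos hb]
      rfl
    · rw [if_neg hb, if_neg hb, Matrix.one_apply, Matrix.one_apply]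
      split_ifs
      · exact map_one _
      · exact map_zero _
  intro R hR
  rw [h1] at hR ⊢
  refine Eq.trans ?_ (h R hR)
  refine Finset.sum_congr rfl fun σ _ => ?_
  rw [Matrix.mul_apply]
  rfl

theorem far_symm {m : ℕ} {H : ℝ} {h b c : ℕ} (hbc : Far m H h b c) : Far m H h c b := by
  unfold Far at hbc ⊢
  rw [abs_sub_comm]
  exact hbc

/-- `s + 1` separated tuples -/
theorem core (m n N q s e δ : ℕ) : ∃ E : ℕ, ∀ (M : ℕ) (β : Fin s → ℂ) (H : ℝ) (h w b₀ : ℕ), 1 ≤ H →
    (2 * H * ((h : ℝ) + w + 2)) ^ E ≤ (b₀ : ℝ) → ∀ x : Fin (s + 1) → Fibres m n N, (∀ l, (x l).Valid q M e β H h w b₀) →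
    (∀ l l', l ≠ l' → Separated H h (x l) (x l')) → ∃ l, (x l).Generic e δ β := by
  classical
  obtain ⟨q', E₀, hbase⟩ := Pool.Agent.H885.base_sysU m n 1 q
  obtain ⟨E, hE⟩ := Pool.Agent.H885.uniformO n N q' s e δ (s + 1) (Nat.lt_succ_self s)
  obtain ⟨e₁, he₁⟩ := Pool.Agent.H885.pow_absorb (c := (2 : ℝ) * (1 + 2 ^ m)) (by
    have : (1 : ℝ) ≤ 2 ^ m := one_le_pow₀ (by norm_num)
    linarith)
  refine ⟨(e₁ + E₀ + 1) * E, fun M β H h w b₀ hH hbig xs hxs hsep => ?_⟩
  set x : ℝ := 2 * H * ((h : ℝ) + w + 2) with hx
  have hh0 : (0 : ℝ) ≤ h := by positivity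
  have hw0 : (0 : ℝ) ≤ w := by positivity
  have hx1 : (h : ℝ) + w + 2 ≤ x := by
    rw [hx]
    nlinarith
  have hx2 : 2 ≤ x := by linarith
  have hx3 : H * ((h : ℝ) + 2) ≤ x := by
    rw [hx]
    nlinarith
  have hx4 : 2 * H * ((h : ℝ) + 2) ≤ x := by
    rw [hx]
    nlinarith
  have hbig' : (2 * (2 * H * ((h : ℝ) + 2)) ^ E₀ * ((w : ℝ) + 2 ^ m * (H * ((h : ℝ) + 2)) + 2)) ^ E ≤ (b₀ : ℝ) := by
    refine le_trans ?_ hbig
    rw [pow_mul]
    refine pow_le_pow_left₀ (by positivity) ?_ E
    have h1 : (2 * H * ((h : ℝ) + 2)) ^ E₀ ≤ x ^ E₀ := pow_le_pow_left₀ (by positivity) hx4 _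
    have h2 : (w : ℝ) + 2 ^ m * (H * ((h : ℝ) + 2)) + 2 ≤ (1 + 2 ^ m) * x := by
      have h3 : (2 : ℝ) ^ m * (H * ((h : ℝ) + 2)) ≤ 2 ^ m * x := mul_le_mul_of_nonneg_left hx3 (by positivity)
      linarith
    calc 2 * (2 * H * ((h : ℝ) + 2)) ^ E₀ * ((w : ℝ) + 2 ^ m * (H * ((h : ℝ) + 2)) + 2) ≤
        2 * x ^ E₀ * ((1 + 2 ^ m) * x) := by
          refine mul_le_mul (by linarith) h2 (by positivity) (by positivity)
      _ = (2 * (1 + 2 ^ m)) * (x ^ E₀ * x) := by ring
      _ ≤ x ^ e₁ * (x ^ E₀ * x) := mul_le_mul_of_nonneg_right (he₁ x hx2) (by positivity)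
      _ = x ^ (e₁ + E₀ + 1) := by ring
  have hFar : ∀ b c : ℕ, Far m H h b c → 2 * (2 ^ m * (H * ((h : ℝ) + 2))) < |(b : ℝ) - c| := by
    intro b c hbc
    refine lt_of_eq_of_lt ?_ hbc
    ring
  have h1 : ∀ l j, ∃ (T' : Polynomial ℤ) (B' : Fin n → Fin n → Polynomial ℤ), T' ≠ 0 ∧
      Pool.Agent.H885.Sys (N := 1) q' ((2 * H * ((h : ℝ) + 2)) ^ E₀) T' (fun _ => B')
        (fun _ => Pool.Agent.H885.lineM ((xs l).a j) ((xs l).Z j)) (fun _ => Pool.Agent.H885.lineM ((xs l).a j) ((xs l).W j)) := by
    intro l j
    obtain ⟨T', B', hT', hS'⟩ := hbase H ((xs l).T j) (fun _ => (xs l).A j) (fun _ => (xs l).Z j) (fun _ => (xs l).W j)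
      (base_of hH ((hxs l).family j)) h (fun _ => (xs l).a j) (fun _ => (hxs l).numerators j) (fun _ => (hxs l).pole j)
    have h2 : B' = fun _ => B' 0 := funext fun i => by rw [Subsingleton.elim i 0]
    rw [h2] at hS'
    exact ⟨T', B' 0, hT', hS'⟩
  choose T' B' hT' hS' using h1
  have hsym : ∀ l, {X | (xs l).IsSymmetry X} ⊆ (Pool.Agent.H885.symS (xs l).b
      (fun j => Pool.Agent.H885.lineM ((xs l).a j) ((xs l).Z j)) : Set (Fin N → Matrix (Fin n) (Fin n) ℂ)) :=
    fun l X hX c => sym_inf (hX c)
  obtain ⟨l, hl⟩ := hE ⟨β, fun l => (xs l).C, (2 * H * ((h : ℝ) + 2)) ^ E₀, T', B',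
      fun l j => Pool.Agent.H885.lineM ((xs l).a j) ((xs l).Z j), fun l j => Pool.Agent.H885.lineM ((xs l).a j) ((xs l).W j),
      2 ^ m * (H * ((h : ℝ) + 2)), w, b₀, fun l => (xs l).b, fun l => Pool.Agent.H885.symS (xs l).b
        fun j => Pool.Agent.H885.lineM ((xs l).a j) ((xs l).Z j)⟩
    ⟨fun l => (hxs l).central, one_le_pow₀ (by nlinarith), hS', hT', by positivity, fun l j a' b' =>
        Pool.Agent.Y120.GH.cx_mem (by positivity)
          (Pool.Agent.H885.line_size hH (((hxs l).family j).size a' b') ((hxs l).numerators j)),
      fun l j => (hxs l).window j, fun l j l' j' hne => by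
        by_cases hll : l = l'
        · subst hll
          rcases (hxs l).far j j' with h2 | h2
          · exact absurd ⟨rfl, h2⟩ hne
          · exact hFar _ _ h2
        · exact hFar _ _ (hsep l l' hll j j'), hbig', fun l X hX β => hX β,
      fun l => Pool.Agent.H885.symS_rat _ _⟩
  refine ⟨l, fun S hS1 hS2 hS3 g hg => ?_⟩
  refine hl S hS1 hS2 ?_ g ?_
  · refine Eq.trans ?_ hS3
    congr 2
    funext σ
    unfold Fibres.periods Fibres.translate
    simp only [Pi.one_apply, Matrix.one_mul]
    rfl
  · refine Submonoid.closure_mono ?_ hg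
    rintro g ⟨X, hX, rfl⟩
    exact ⟨X, hsym l hX, rfl⟩

/-- **The theorem.** Part 1: at most `s` of a family of separated tuples of fibres are not generic. Part 2: the exceptional
denominators. -/
theorem result (m n N M q s e δ : ℕ) :
    ∃ E : ℕ, ∀ (β : Fin s → ℂ) (H : ℝ) (h w b₀ : ℕ), 1 ≤ H → (2 * H * ((h : ℝ) + w + 2)) ^ E ≤ (b₀ : ℝ) →
    (∀ (L : ℕ) (x : Fin L → Fibres m n N), (∀ l, (x l).Valid q M e β H h w b₀) →
      (∀ l l', l ≠ l' → Separated H h (x l) (x l')) → (∀ l, ¬ (x l).Generic e δ β) → L ≤ s) ∧
    ∃ F : Finset ℕ, F.card ≤ M * s ∧ ∀ x : Fibres m n N, x.Valid q M e β H h w b₀ →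
      (∀ j, ∀ c ∈ F, Far m H h (x.b j) c) → x.Generic e δ β := by
  classical
  obtain ⟨E, hE⟩ := core m n N q s e δ
  refine ⟨E, fun β H h w b₀ hH hbig => ?_⟩
  have hPle : ∀ (L : ℕ) (x : Fin L → Fibres m n N), (∀ l, (x l).Valid q M e β H h w b₀) →
      (∀ l l', l ≠ l' → Separated H h (x l) (x l')) → (∀ l, ¬ (x l).Generic e δ β) → L ≤ s := by
    intro L x hx hsep hbad
    by_contra hcon
    obtain ⟨l, hl⟩ := hE M β H h w b₀ hH hbig (fun i => x (Fin.castLE (by omega) i)) (fun i => hx _)
      fun i i' hii => hsep _ _ fun h1 => hii (Fin.castLE_injective _ h1)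
    exact hbad _ hl
  refine ⟨hPle, ?_⟩
  -- the exceptional denominators
  set P : ℕ → Prop := fun p => ∃ x : Fin p → Fibres m n N, (∀ l, (x l).Valid q M e β H h w b₀) ∧
    (∀ l l', l ≠ l' → Separated H h (x l) (x l')) ∧ ∀ l, ¬ (x l).Generic e δ β with hP
  have hP0 : P 0 := ⟨fun l => l.elim0, fun l => l.elim0, fun l => l.elim0, fun l => l.elim0⟩
  obtain ⟨p, hPp, hPp1⟩ : ∃ p, P p ∧ ¬ P (p + 1) := by
    by_contra hcon
    push Not at hcon
    have h1 : ∀ p, P p := by
      intro p
      induction p with
      | zero => exact hP0
      | succ p ih => exact hcon p ih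
    obtain ⟨x, h2, h3, h4⟩ := h1 (s + 1)
    have := hPle _ x h2 h3 h4
    omega
  obtain ⟨x, hx, hsep, hbad⟩ := hPp
  have hple := hPle p x hx hsep hbad
  refine ⟨Finset.univ.biUnion fun l => Finset.univ.image (x l).b, ?_, fun y hy hyF => ?_⟩
  · refine Finset.card_biUnion_le.trans ?_
    refine (Finset.sum_le_card_nsmul _ _ M fun l _ => (hx l).different).trans ?_
    rw [Finset.card_univ, Fintype.card_fin, smul_eq_mul, mul_comm]
    exact Nat.mul_le_mul_left _ hple
  · by_contra hybad
    apply hPp1
    refine ⟨Fin.cons y x, fun l => ?_, fun l l' hll i j => ?_, fun l => ?_⟩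
    · refine Fin.cases ?_ (fun l => ?_) l
      · exact hy
      · exact hx l
    · have hin : ∀ l j, (x l).b j ∈ Finset.univ.biUnion fun l => Finset.univ.image (x l).b := fun l j =>
        Finset.mem_biUnion.2 ⟨l, Finset.mem_univ _, Finset.mem_image_of_mem _ (Finset.mem_univ _)⟩
      rcases Fin.eq_zero_or_eq_succ l with rfl | ⟨l, rfl⟩ <;> rcases Fin.eq_zero_or_eq_succ l' with rfl | ⟨l', rfl⟩
      · exact absurd rfl hll
      · rw [Fin.cons_zero, Fin.cons_succ]
        exact hyF i _ (hin l' j)
      · rw [Fin.cons_zero, Fin.cons_succ]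
        exact far_symm (hyF j _ (hin l i))
      · rw [Fin.cons_succ, Fin.cons_succ]
        exact hsep l l' (fun h1 => hll (by rw [h1])) i j
    · refine Fin.cases ?_ (fun l => ?_) l
      · exact hybad
      · exact hbad l

end Pool.Agent.Results.MP_290158_ag.UniformRelations
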